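import Mathlib

/-!
Definitions for edge states of sharply terminated honeycombs.  The plane is modelled by the
complex numbers with their Euclidean distance, quasi-momenta by `Real.Angle`, the reals modulo
two pi.
-/

set_option autoImplicit false

namespace Pool.Agent.Lib.MP_1b99aa_mp

/-- first generator of the triangular lattice -/
noncomputable def gen1 : ℂ := ⟨Real.sqrt 3 / 2, 1 / 2⟩

/-- second generator of the triangular lattice -/
noncomputable def gen2 : ℂ := ⟨Real.sqrt 3 / 2, -(1 / 2)⟩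

/-- Euclidean scalar product of the plane -/
def dot (x y : ℂ) : ℝ := x.re * y.re + x.im * y.im

/-- the honeycomb: A-sites and B-sites -/
def honeycomb : Set ℂ :=
  {ω | ∃ m n : ℤ, ω = (m : ℂ) * gen1 + (n : ℂ) * gen2 ∨
    ω = (⟨1 / Real.sqrt 3, 0⟩ : ℂ) + ((m : ℂ) * gen1 + (n : ℂ) * gen2)}

/-- the sites of the honeycomb in the closed half-plane `c ≤ ν · ω` -/
def edgeSites (ν : ℂ) (c : ℝ) : Set ℂ := {ω | ω ∈ honeycomb ∧ c ≤ dot ν ω}

/-- `E` is a `k`-edge-state eigenvalue of the nearest-neighbour Hamiltonian on the site set `D`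
with period vector `v`; functions on `D` are extended by zero to the plane. -/
def IsEdgeEigenvalue (v : ℂ) (D : Set ℂ) (k : Real.Angle) (E : ℝ) : Prop :=
  ∃ ψ : ℂ → ℂ, ψ ≠ 0 ∧ (∀ ω, ω ∉ D → ψ ω = 0) ∧
    (∀ ω, ψ (ω + v) = ((k.cos : ℂ) + (k.sin : ℂ) * Complex.I) * ψ ω) ∧
    Summable (fun q : ℂ ⧸ AddSubgroup.zmultiples v => ‖ψ q.out‖ ^ 2) ∧
    ∀ ω ∈ D, (∑ᶠ ω' ∈ {ω' | ω' ∈ D ∧ dist ω' ω = 1 / Real.sqrt 3}, ψ ω') = (E : ℂ) * ψ ω

/-- a continuous curve of edge-state eigenvalues on an open arc `I` (a nonempty open connected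
subset of the circle, possibly the whole circle) -/
def IsEigenArc (v : ℂ) (D : Set ℂ) (I : Set Real.Angle) (E : Real.Angle → ℝ) : Prop :=
  IsOpen I ∧ IsConnected I ∧ ContinuousOn E I ∧ ∀ k ∈ I, IsEdgeEigenvalue v D k (E k)

/-- an edge state curve: a maximal such curve -/
def IsEdgeStateCurve (v : ℂ) (D : Set ℂ) (I : Set Real.Angle) (E : Real.Angle → ℝ) : Prop :=
  IsEigenArc v D I E ∧
    ∀ (J : Set Real.Angle) (F : Real.Angle → ℝ), IsEigenArc v D J F → I ⊆ J → Set.EqOn F E I → J = I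

/-- Dirac points of the bulk operator -/
def IsDirac (κ : ℂ) : Prop :=
  1 + Complex.exp ((dot κ gen1 : ℝ) * Complex.I) + Complex.exp ((dot κ gen2 : ℝ) * Complex.I) = 0

end Pool.Agent.Lib.MP_1b99aa_mp
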