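import Mathlib
import Pool.Agent.Lib.MP_1b99aa_mp.Defs

-- part Pool.Agent.Lib.MP_1b99aa_mp.Abstract
section

/-!
The smallest singular value of a bounded operator: continuity, and attainment below a bound that
holds up to a finite-rank error.
-/

set_option autoImplicit false

namespace Pool.Agent.Lib.MP_1b99aa_mp

open Filter Topology

variable {H : Type} [NormedAddCommGroup H] [InnerProductSpace ℂ H]

/-- the smallest singular value -/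
noncomputable def smin (T : H →L[ℂ] H) : ℝ := ⨅ x : {x : H // ‖x‖ = 1}, ‖T x.1‖

theorem smin_bdd (T : H →L[ℂ] H) :
    BddBelow (Set.range fun x : {x : H // ‖x‖ = 1} => ‖T x.1‖) :=
  ⟨0, by rintro _ ⟨x, rfl⟩; exact norm_nonneg _⟩

theorem smin_nonneg (T : H →L[ℂ] H) : 0 ≤ smin T :=
  Real.iInf_nonneg fun _ => norm_nonneg _

theorem smin_le (T : H →L[ℂ] H) {x : H} (hx : ‖x‖ = 1) : smin T ≤ ‖T x‖ :=
  ciInf_le (smin_bdd T) ⟨x, hx⟩

theorem smin_mul_le (T : H →L[ℂ] H) (x : H) : smin T * ‖x‖ ≤ ‖T x‖ := by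
  by_cases hx : x = 0
  · simp [hx]
  have hn : 0 < ‖x‖ := norm_pos_iff.2 hx
  have h1 : ‖((‖x‖⁻¹ : ℝ) : ℂ) • x‖ = 1 := by
    rw [norm_smul]; simp [hn.ne']
  have h2 := smin_le T h1
  rw [map_smul, norm_smul] at h2
  simp only [Complex.norm_real, norm_inv, norm_norm] at h2
  calc smin T * ‖x‖ ≤ ‖x‖⁻¹ * ‖T x‖ * ‖x‖ := by gcongr
    _ = ‖T x‖ := by field_simp

theorem smin_sub_le [Nonempty {x : H // ‖x‖ = 1}] (T T' : H →L[ℂ] H) :
    smin T ≤ smin T' + ‖T - T'‖ := by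
  have : smin T - ‖T - T'‖ ≤ smin T' := by
    refine le_ciInf fun x => ?_
    have h1 := smin_le T x.2
    have h2 : ‖T x.1‖ ≤ ‖T' x.1‖ + ‖(T - T') x.1‖ := by
      have := norm_add_le (T' x.1) ((T - T') x.1)
      simpa using this
    have h3 := (T - T').le_opNorm x.1
    rw [x.2] at h3
    linarith
  linarith

theorem continuous_smin [Nonempty {x : H // ‖x‖ = 1}] :
    Continuous (smin : (H →L[ℂ] H) → ℝ) := by
  refine (LipschitzWith.of_le_add fun T T' => ?_).continuous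
  rw [dist_eq_norm]
  exact smin_sub_le T T'

theorem smin_attained [CompleteSpace H] [Nonempty {x : H // ‖x‖ = 1}] (T : H →L[ℂ] H)
    (l0 l1 : H →L[ℂ] ℂ) (μ : ℝ) (hμ : smin T ^ 2 < μ)
    (hb : ∀ x, μ * ‖x‖ ^ 2 ≤ ‖T x‖ ^ 2 + ‖l0 x‖ ^ 2 + ‖l1 x‖ ^ 2) :
    ∃ x : H, ‖x‖ = 1 ∧ ‖T x‖ = smin T := by
  set σ := smin T with hσ
  have hσ0 : 0 ≤ σ := smin_nonneg T
  obtain ⟨y, -, hy, hmem⟩ := exists_seq_tendsto_sInf (Set.range_nonempty _) (smin_bdd T)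
  choose x hx using hmem
  have hy' : Tendsto (fun n => ‖T (x n).1‖) atTop (𝓝 σ) := by
    simp only [hx]; exact hy
  have hbd : ∀ n, (l0 (x n).1, l1 (x n).1) ∈ Metric.closedBall (0 : ℂ × ℂ) (‖l0‖ + ‖l1‖) := by
    intro n
    rw [mem_closedBall_zero_iff, Prod.norm_def]
    have h0 := l0.le_opNorm (x n).1
    have h1 := l1.le_opNorm (x n).1
    rw [(x n).2] at h0 h1
    have := norm_nonneg l0
    have := norm_nonneg l1
    exact max_le (by linarith) (by linarith)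
  obtain ⟨w, -, φ, hφ, hw⟩ := (isCompact_closedBall (0 : ℂ × ℂ) _).tendsto_subseq hbd
  let z : ℕ → H := fun n => (x (φ n)).1
  have hz1 : ∀ n, ‖z n‖ = 1 := fun n => (x (φ n)).2
  have hzT : Tendsto (fun n => ‖T (z n)‖) atTop (𝓝 σ) := hy'.comp hφ.tendsto_atTop
  have hz0 : Tendsto (fun n => l0 (z n)) atTop (𝓝 w.1) := (continuous_fst.tendsto w).comp hw
  have hz1' : Tendsto (fun n => l1 (z n)) atTop (𝓝 w.2) := (continuous_snd.tendsto w).comp hw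
  let e : ℕ → ℝ := fun n =>
    2 * (‖T (z n)‖ ^ 2 - σ ^ 2) + 2 * ‖l0 (z n) - w.1‖ ^ 2 + 2 * ‖l1 (z n) - w.2‖ ^ 2
  have he : Tendsto e atTop (𝓝 0) := by
    have h1 := ((hzT.pow 2).sub_const (σ ^ 2)).const_mul 2
    have h2 := (((hz0.sub_const w.1).norm).pow 2).const_mul 2
    have h3 := (((hz1'.sub_const w.2).norm).pow 2).const_mul 2
    have := (h1.add h2).add h3
    simpa using this
  have key : ∀ m n, (μ - σ ^ 2) * ‖z m - z n‖ ^ 2 ≤ e m + e n := by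
    intro m n
    have p1 := parallelogram_law_with_norm ℂ (z m) (z n)
    have p2 := parallelogram_law_with_norm ℂ (T (z m)) (T (z n))
    rw [hz1, hz1] at p1
    have q1 : σ ^ 2 * ‖z m + z n‖ ^ 2 ≤ ‖T (z m) + T (z n)‖ ^ 2 := by
      rw [← mul_pow, ← map_add]
      exact pow_le_pow_left₀ (mul_nonneg hσ0 (norm_nonneg _)) (smin_mul_le T _) 2
    have q2 := hb (z m - z n)
    rw [map_sub, map_sub, map_sub] at q2
    have r0 := parallelogram_law_with_norm ℂ (l0 (z m) - w.1) (l0 (z n) - w.1)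
    have r1 := parallelogram_law_with_norm ℂ (l1 (z m) - w.2) (l1 (z n) - w.2)
    rw [sub_sub_sub_cancel_right] at r0 r1
    have s0 := sq_nonneg ‖l0 (z m) - w.1 + (l0 (z n) - w.1)‖
    have s1 := sq_nonneg ‖l1 (z m) - w.2 + (l1 (z n) - w.2)‖
    have t : σ ^ 2 * ‖z m + z n‖ ^ 2 + σ ^ 2 * ‖z m - z n‖ ^ 2 = 4 * σ ^ 2 := by
      rw [← mul_add, p1]; ring
    simp only [e]
    nlinarith
  have hc : CauchySeq z := by
    rw [Metric.cauchySeq_iff]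
    intro ε hε
    have hpos : 0 < (μ - σ ^ 2) * ε ^ 2 / 2 := by
      have : 0 < μ - σ ^ 2 := by linarith
      positivity
    obtain ⟨N, hN⟩ := (Metric.tendsto_atTop.1 he) _ hpos
    refine ⟨N, fun m hm n hn => ?_⟩
    have h1 := hN m hm
    have h2 := hN n hn
    rw [Real.dist_eq, sub_zero, abs_lt] at h1 h2
    rw [dist_eq_norm]
    have h3 : (μ - σ ^ 2) * ‖z m - z n‖ ^ 2 < (μ - σ ^ 2) * ε ^ 2 := by
      have := key m n
      linarith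
    exact lt_of_pow_lt_pow_left₀ 2 hε.le (lt_of_mul_lt_mul_left h3 (by linarith))
  obtain ⟨v, hv⟩ := cauchySeq_tendsto_of_complete hc
  refine ⟨v, ?_, ?_⟩
  · have := hv.norm
    simp only [hz1] at this
    exact tendsto_nhds_unique this tendsto_const_nhds
  · exact tendsto_nhds_unique ((T.continuous.tendsto v).comp hv).norm hzT

theorem adjoint_eq_of_attained [CompleteSpace H] (T : H →L[ℂ] H) {x : H} (hx : ‖x‖ = 1)
    (hT : ‖T x‖ = smin T) :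
    ContinuousLinearMap.adjoint T (T x) = ((smin T ^ 2 : ℝ) : ℂ) • x := by
  set σ := smin T with hσ
  have hσ0 : 0 ≤ σ := smin_nonneg T
  set y : H := ContinuousLinearMap.adjoint T (T x) - ((σ ^ 2 : ℝ) : ℂ) • x with hy
  have hyy : RCLike.re (inner ℂ (T x) (T y)) - σ ^ 2 * RCLike.re (inner ℂ x y) = ‖y‖ ^ 2 := by
    have h1 : inner ℂ y y = inner ℂ (T x) (T y) - ((σ ^ 2 : ℝ) : ℂ) * inner ℂ x y := by
      conv_lhs => rw [hy]
      rw [← hy]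
      nth_rewrite 1 [hy]
      rw [inner_sub_left, inner_smul_left, ContinuousLinearMap.adjoint_inner_left]
      simp
    rw [← inner_self_eq_norm_sq (𝕜 := ℂ), h1]
    simp [-Complex.ofReal_pow]
  have hq : ∀ t : ℝ, 0 ≤ 2 * t * ‖y‖ ^ 2 + t ^ 2 * (‖T y‖ ^ 2 - σ ^ 2 * ‖y‖ ^ 2) := by
    intro t
    have q1 : σ ^ 2 * ‖x + (t : ℂ) • y‖ ^ 2 ≤ ‖T x + (t : ℂ) • T y‖ ^ 2 := by
      rw [← mul_pow, ← map_smul, ← map_add]
      exact pow_le_pow_left₀ (mul_nonneg hσ0 (norm_nonneg _)) (smin_mul_le T _) 2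
    rw [norm_add_sq (𝕜 := ℂ), norm_add_sq (𝕜 := ℂ), inner_smul_right, inner_smul_right,
      norm_smul, norm_smul, hx, hT] at q1
    simp only [RCLike.re_to_complex, Complex.re_ofReal_mul, Complex.norm_real, Real.norm_eq_abs,
      mul_pow, sq_abs] at q1 hyy
    have h2 := congrArg (fun s : ℝ => 2 * t * s) hyy
    linarith
  have hy0 : ‖y‖ ^ 2 = 0 := by
    set A := ‖y‖ ^ 2 with hA
    set B := ‖T y‖ ^ 2 - σ ^ 2 * A with hB
    have hA0 : 0 ≤ A := by positivity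
    by_contra hne
    have hApos : 0 < A := lt_of_le_of_ne hA0 (Ne.symm hne)
    have hden : 0 < |B| + 1 := by positivity
    have h1 := hq (-(A / (|B| + 1)))
    have h2 : (-(A / (|B| + 1))) ^ 2 * B ≤ (A / (|B| + 1)) * A := by
      have : B ≤ |B| + 1 := by linarith [le_abs_self B]
      calc (-(A / (|B| + 1))) ^ 2 * B ≤ (-(A / (|B| + 1))) ^ 2 * (|B| + 1) := by gcongr
        _ = (A / (|B| + 1)) * A := by field_simp
    have h3 : 0 < (A / (|B| + 1)) * A := by positivity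
    nlinarith
  have : y = 0 := by simpa using hy0
  rw [hy] at this
  exact sub_eq_zero.1 this

end Pool.Agent.Lib.MP_1b99aa_mp
end

-- part Pool.Agent.Lib.MP_1b99aa_mp.Maximal
section

/-!
Every continuous arc of eigenvalues extends to a maximal one.
-/

set_option autoImplicit false

namespace Pool.Agent.Lib.MP_1b99aa_mp

open Filter Topology

/-- graph of a function over a set -/
def graphOn (I : Set Real.Angle) (E : Real.Angle → ℝ) : Set (Real.Angle × ℝ) :=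
  {p | p.1 ∈ I ∧ p.2 = E p.1}

theorem graphOn_subset {I J : Set Real.Angle} {E F : Real.Angle → ℝ} :
    graphOn I E ⊆ graphOn J F ↔ I ⊆ J ∧ Set.EqOn F E I := by
  constructor
  · intro h
    exact ⟨fun k hk => (h (show (k, E k) ∈ graphOn I E from ⟨hk, rfl⟩)).1,
      fun k hk => (h (show (k, E k) ∈ graphOn I E from ⟨hk, rfl⟩)).2.symm⟩
  · rintro ⟨h1, h2⟩ p ⟨hp1, hp2⟩
    exact ⟨h1 hp1, by rw [hp2, h2 hp1]⟩

theorem exists_maximal (v : ℂ) (D : Set ℂ) (I0 : Set Real.Angle) (E0 : Real.Angle → ℝ)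
    (h0 : IsEigenArc v D I0 E0) :
    ∃ I E, IsEdgeStateCurve v D I E ∧ I0 ⊆ I := by
  classical
  obtain ⟨k0, hk0⟩ := h0.2.1.nonempty
  let 𝒮 : Set (Set (Real.Angle × ℝ)) :=
    {Γ | ∃ I E, IsEigenArc v D I E ∧ I0 ⊆ I ∧ Γ = graphOn I E}
  have hchain : ∀ c ⊆ 𝒮, IsChain (· ⊆ ·) c → c.Nonempty → ∃ ub ∈ 𝒮, ∀ s ∈ c, s ⊆ ub := by
    intro c hc hch hne
    have hc' : ∀ Γ, Γ ∈ c → ∃ I E, IsEigenArc v D I E ∧ I0 ⊆ I ∧ Γ = graphOn I E :=
      fun Γ hΓ => hc hΓ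
    choose! I E hIE' using hc'
    have hIE : ∀ {Γ}, Γ ∈ c → IsEigenArc v D (I Γ) (E Γ) ∧ I0 ⊆ I Γ ∧ Γ = graphOn (I Γ) (E Γ) :=
      fun {Γ} hΓ => hIE' Γ hΓ
    let J : Set Real.Angle := ⋃ Γ ∈ c, I Γ
    let F : Real.Angle → ℝ := fun k =>
      if h : ∃ Γ ∈ c, k ∈ I Γ then E h.choose k else 0
    have hcomp : ∀ Γ ∈ c, ∀ Γ' ∈ c, ∀ k ∈ I Γ, k ∈ I Γ' → E Γ k = E Γ' k := by
      intro Γ hΓ Γ' hΓ' k hk hk'
      rcases hch.total hΓ hΓ' with h | h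
      · rw [(hIE hΓ).2.2, (hIE hΓ').2.2, graphOn_subset] at h
        exact (h.2 hk).symm
      · rw [(hIE hΓ).2.2, (hIE hΓ').2.2, graphOn_subset] at h
        exact h.2 hk'
    have hF : ∀ Γ ∈ c, Set.EqOn F (E Γ) (I Γ) := by
      intro Γ hΓ k hk
      have h : ∃ Γ ∈ c, k ∈ I Γ := ⟨Γ, hΓ, hk⟩
      simp only [F, dif_pos h]
      exact hcomp _ h.choose_spec.1 _ hΓ k h.choose_spec.2 hk
    have hsub : ∀ Γ ∈ c, I Γ ⊆ J := fun Γ hΓ => Set.subset_biUnion_of_mem (u := I) hΓ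
    obtain ⟨Γ0, hΓ0⟩ := hne
    refine ⟨graphOn J F, ⟨J, F, ⟨?_, ⟨⟨k0, hsub _ hΓ0 ((hIE hΓ0).2.1 hk0)⟩, ?_⟩, ?_, ?_⟩,
      (hIE hΓ0).2.1.trans (hsub _ hΓ0), rfl⟩, ?_⟩
    · exact isOpen_biUnion fun Γ hΓ => (hIE hΓ).1.1
    · refine isPreconnected_of_forall k0 fun y hy => ?_
      obtain ⟨Γ, hΓ, hy'⟩ := Set.mem_iUnion₂.1 hy
      exact ⟨I Γ, hsub _ hΓ, (hIE hΓ).2.1 hk0, hy', (hIE hΓ).1.2.1.isPreconnected⟩
    · intro k hk
      obtain ⟨Γ, hΓ, hk'⟩ := Set.mem_iUnion₂.1 hk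
      have hn : I Γ ∈ 𝓝 k := (hIE hΓ).1.1.mem_nhds hk'
      have h1 : ContinuousAt (E Γ) k := ((hIE hΓ).1.2.2.1 k hk').continuousAt hn
      have h2 : E Γ =ᶠ[𝓝 k] F := Filter.eventuallyEq_of_mem hn (hF Γ hΓ).symm
      exact (h1.congr h2).continuousWithinAt
    · intro k hk
      obtain ⟨Γ, hΓ, hk'⟩ := Set.mem_iUnion₂.1 hk
      rw [hF Γ hΓ hk']
      exact (hIE hΓ).1.2.2.2 k hk'
    · intro Γ hΓ
      rw [(hIE hΓ).2.2, graphOn_subset]
      exact ⟨hsub _ hΓ, hF Γ hΓ⟩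
  obtain ⟨Γ, -, hmax⟩ := zorn_subset_nonempty 𝒮 hchain (graphOn I0 E0) ⟨I0, E0, h0, le_rfl, rfl⟩
  obtain ⟨I, E, hIE, hI0, rfl⟩ := hmax.1
  refine ⟨I, E, ⟨hIE, fun J F hJF hIJ hEq => ?_⟩, hI0⟩
  have h1 : graphOn I E ⊆ graphOn J F := graphOn_subset.2 ⟨hIJ, hEq⟩
  have h2 : graphOn J F ⊆ graphOn I E := hmax.2 ⟨J, F, hJF, hI0.trans hIJ, rfl⟩ h1
  exact Set.Subset.antisymm (graphOn_subset.1 h2).1 hIJ

end Pool.Agent.Lib.MP_1b99aa_mp
end
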