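import Mathlib
import Pool.Agent.Lib.MP_1b99aa_mp.Defs
import Pool.Agent.Lib.MP_1b99aa_mp.Maximal

-- part Pool.Agent.Lib.MP_1b99aa_mp.Seq
section

/-!
One-dimensional reduction of the edge (3,1): sequences `a`, `b` on the integers, zero at negative
indices.  No decaying solution exists when `u = -8/17 ± 15/17 i`.
-/

set_option autoImplicit false

namespace Pool.Agent.Lib.MP_1b99aa_mp

open Filter Topology ComplexConjugate

/-- the reduced eigenvalue equations -/
structure IsSol (u : ℂ) (E : ℝ) (a b : ℤ → ℂ) : Prop where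
  a_neg : ∀ n : ℤ, n < 0 → a n = 0
  b_neg : ∀ n : ℤ, n < 0 → b n = 0
  eqA : ∀ n : ℤ, 0 ≤ n → b (n - 1) + b (n - 2) + conj u * b (n + 2) = E * a n
  eqB : ∀ n : ℤ, 0 ≤ n → a (n + 1) + a (n + 2) + u * a (n - 2) = E * b n

theorem const_of_step {W : ℤ → ℂ} (h : ∀ N : ℤ, 0 ≤ N → W (N + 1) = W N)
    (hl : Tendsto W atTop (𝓝 0)) : W 0 = 0 := by
  have hc : ∀ n : ℕ, W n = W 0 := by
    intro n
    induction n with
    | zero => rfl
    | succ m ih => rw [← ih, ← h m (by positivity)]; push_cast; rfl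
  have h1 : Tendsto (fun n : ℕ => W n) atTop (𝓝 0) := hl.comp tendsto_natCast_atTop_atTop
  simp only [hc] at h1
  exact tendsto_nhds_unique tendsto_const_nhds h1

theorem tendsto_shift {a : ℤ → ℂ} (ha : Tendsto a atTop (𝓝 0)) (j : ℤ) :
    Tendsto (fun N : ℤ => a (N + j)) atTop (𝓝 0) :=
  ha.comp (tendsto_atTop_add_const_right _ j tendsto_id)

theorem tendsto_shift_conj {a : ℤ → ℂ} (ha : Tendsto a atTop (𝓝 0)) (j : ℤ) :
    Tendsto (fun N : ℤ => conj (a (N + j))) atTop (𝓝 0) := by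
  have := (Complex.continuous_conj.tendsto 0).comp (tendsto_shift ha j)
  rw [map_zero] at this
  exact this

/-- the Wronskian of a solution and its shift by `d` -/
def wr (u : ℂ) (a b : ℤ → ℂ) (d N : ℤ) : ℂ :=
  - conj (a (N + 0)) * b (N + (d - 1)) - conj (a (N + 0)) * b (N + (d - 2))
    - conj (a (N + 1)) * b (N + (d - 1))
    + conj u * (conj (a (N + (-2))) * b (N + d) + conj (a (N + (-1))) * b (N + (d + 1)))
    + conj (b (N + (-1))) * a (N + d) + conj (b (N + (-2))) * a (N + d)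
    + conj (b (N + (-1))) * a (N + (d + 1))
    - u * (conj (b (N + 0)) * a (N + (d - 2)) + conj (b (N + 1)) * a (N + (d - 1)))

theorem wr_tendsto (u : ℂ) {a b : ℤ → ℂ} (ha : Tendsto a atTop (𝓝 0))
    (hb : Tendsto b atTop (𝓝 0)) (d : ℤ) : Tendsto (wr u a b d) atTop (𝓝 0) := by
  have A := tendsto_shift ha
  have B := tendsto_shift hb
  have A' := tendsto_shift_conj ha
  have B' := tendsto_shift_conj hb
  have := ((((((((A' 0).neg.mul (B (d - 1))).sub ((A' 0).mul (B (d - 2)))).sub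
    ((A' 1).mul (B (d - 1)))).add ((((A' (-2)).mul (B d)).add
      ((A' (-1)).mul (B (d + 1)))).const_mul (conj u))).add ((B' (-1)).mul (A d))).add
      ((B' (-2)).mul (A d))).add ((B' (-1)).mul (A (d + 1)))).sub
      ((((B' 0).mul (A (d - 2))).add ((B' 1).mul (A (d - 1)))).const_mul u)
  refine (this.congr fun N => rfl).trans ?_
  simp

theorem wr_step {u : ℂ} {E : ℝ} {a b : ℤ → ℂ} (h : IsSol u E a b) {d : ℤ} (hd : 0 ≤ d)
    (N : ℤ) (hN : 0 ≤ N) : wr u a b d (N + 1) = wr u a b d N := by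
  have h1 := h.eqA (N + d) (by omega)
  have h2 := h.eqB (N + d) (by omega)
  have h3 := congrArg conj (h.eqA N hN)
  have h4 := congrArg conj (h.eqB N hN)
  simp only [map_add, map_mul, Complex.conj_conj, Complex.conj_ofReal] at h3 h4
  unfold wr
  have e1 : N + 1 + 0 = N + 1 := by ring
  have e2 : N + 1 + (d - 1) = N + d := by ring
  have e3 : N + 1 + (d - 2) = N + d - 1 := by ring
  have e4 : N + 1 + 1 = N + 2 := by ring
  have e5 : N + 1 + (-2) = N - 1 := by ring
  have e6 : N + 1 + d = N + d + 1 := by ring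
  have e7 : N + 1 + (-1) = N := by ring
  have e8 : N + 1 + (d + 1) = N + d + 2 := by ring
  have f1 : N + 0 = N := by ring
  have f2 : N + (d - 1) = N + d - 1 := by ring
  have f3 : N + (d - 2) = N + d - 2 := by ring
  have f5 : N + (-2) = N - 2 := by ring
  have f7 : N + (-1) = N - 1 := by ring
  have f8 : N + (d + 1) = N + d + 1 := by ring
  rw [e1, e2, e3, e4, e5, e6, e7, e8, f1, f2, f3, f5, f7, f8]
  linear_combination conj (a N) * h1 + conj (b N) * h2 - a (N + d) * h3 - b (N + d) * h4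

theorem wr_zero {u : ℂ} {E : ℝ} {a b : ℤ → ℂ} (h : IsSol u E a b)
    (ha : Tendsto a atTop (𝓝 0)) (hb : Tendsto b atTop (𝓝 0)) {d : ℤ} (hd : 0 ≤ d) :
    (conj (a 0) + conj (a 1)) * b (d - 1) + conj (a 0) * b (d - 2)
      + u * (conj (b 0) * a (d - 2) + conj (b 1) * a (d - 1)) = 0 := by
  have := const_of_step (fun N hN => wr_step h hd N hN) (wr_tendsto u ha hb d)
  unfold wr at this
  simp only [zero_add, h.a_neg (-1) (by norm_num), h.a_neg (-2) (by norm_num),
    h.b_neg (-1) (by norm_num), h.b_neg (-2) (by norm_num), map_zero, zero_mul, add_zero,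
    mul_zero] at this
  linear_combination -this

/-- a solution whose first values vanish is zero -/
theorem zero_of_init {u : ℂ} {E : ℝ} {a b : ℤ → ℂ} (h : IsSol u E a b) (hu : u ≠ 0)
    (a0 : a 0 = 0) (a1 : a 1 = 0) (b0 : b 0 = 0) (b1 : b 1 = 0) : ∀ n, a n = 0 ∧ b n = 0 := by
  have key : ∀ m : ℕ, ∀ n : ℤ, n ≤ (m : ℤ) + 1 → a n = 0 ∧ b n = 0 := by
    intro m
    induction m with
    | zero =>
      intro n hn
      by_cases h0 : n < 0
      · exact ⟨h.a_neg n h0, h.b_neg n h0⟩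
      · have : n = 0 ∨ n = 1 := by omega
        rcases this with rfl | rfl
        · exact ⟨a0, b0⟩
        · exact ⟨a1, b1⟩
    | succ k ih =>
      intro n hn
      by_cases h0 : n ≤ (k : ℤ) + 1
      · exact ih n h0
      · have hn' : n = (k : ℤ) + 2 := by push_cast at hn; omega
        have e1 := h.eqA k (by positivity)
        have e2 := h.eqB k (by positivity)
        rw [(ih (k - 1) (by omega)).2, (ih (k - 2) (by omega)).2, (ih k (by omega)).1] at e1
        rw [(ih (k + 1) (by omega)).1, (ih (k - 2) (by omega)).1, (ih k (by omega)).2] at e2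
        subst hn'
        refine ⟨by simpa using e2, ?_⟩
        have : conj u * b (k + 2) = 0 := by simpa using e1
        rcases mul_eq_zero.1 this with h' | h'
        · exact absurd (by simpa using h') hu
        · exact h'
  intro n
  exact key n.toNat n (by omega)

/-- the final real inequality -/
theorem real_core {P Q R W τ c s : ℝ} (hP : 0 < P) (hQ : 0 < Q) (hτ : 0 ≤ τ)
    (hcs : c ^ 2 + s ^ 2 = 1) (hc : c < -15 / 32) (hPQ : R ^ 2 + W ^ 2 = P * Q)
    (h1 : P * Q = 2 * R * (P - Q))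
    (h2 : (1 + τ) * (P + Q) = 2 * ((1 + c) * ((1 - τ) * R) + s * ((1 + τ) * W))) : False := by
  have hPQ0 : 0 < P * Q := mul_pos hP hQ
  have hR : R ^ 2 ≤ P * Q := by nlinarith [sq_nonneg W]
  have h3 : P * Q ≤ 4 * (P - Q) ^ 2 := by
    have e : (P * Q) ^ 2 = 4 * R ^ 2 * (P - Q) ^ 2 := by rw [h1]; ring
    have : (P * Q) * (P * Q) ≤ (P * Q) * (4 * (P - Q) ^ 2) := by
      nlinarith [sq_nonneg (P - Q)]
    exact le_of_mul_le_mul_left this hPQ0
  have h4 : 17 * (P * Q) ≤ 4 * (P + Q) ^ 2 := by nlinarith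
  have hc1 : -1 ≤ c := by nlinarith [sq_nonneg s, sq_nonneg (c + 1)]
  have h5 : ((1 + c) * ((1 - τ) * R) + s * ((1 + τ) * W)) ^ 2
      ≤ ((1 + c) ^ 2 + s ^ 2) * (((1 - τ) * R) ^ 2 + ((1 + τ) * W) ^ 2) := by
    nlinarith [sq_nonneg ((1 + c) * ((1 + τ) * W) - s * ((1 - τ) * R))]
  have h6 : ((1 - τ) * R) ^ 2 + ((1 + τ) * W) ^ 2 ≤ (1 + τ) ^ 2 * (P * Q) := by
    rw [← hPQ]
    nlinarith [mul_nonneg hτ (sq_nonneg R)]
  have h7 : (1 + c) ^ 2 + s ^ 2 = 2 * (1 + c) := by nlinarith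
  have h8 : (1 + τ) ^ 2 * (P + Q) ^ 2 ≤ (1 + τ) ^ 2 * (8 * (1 + c) * (P * Q)) := by
    have e : (1 + τ) ^ 2 * (P + Q) ^ 2
        = 4 * ((1 + c) * ((1 - τ) * R) + s * ((1 + τ) * W)) ^ 2 := by
      rw [← mul_pow, h2]; ring
    rw [e]
    have : (2 * (1 + c)) * (((1 - τ) * R) ^ 2 + ((1 + τ) * W) ^ 2)
        ≤ (2 * (1 + c)) * ((1 + τ) ^ 2 * (P * Q)) :=
      mul_le_mul_of_nonneg_left h6 (by linarith)
    rw [h7] at h5
    nlinarith
  have h9 : (P + Q) ^ 2 ≤ 8 * (1 + c) * (P * Q) :=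
    le_of_mul_le_mul_left h8 (by positivity)
  nlinarith

/-- the algebraic obstruction for nonzero energy -/
theorem alg_core {u b0 b1 β0 β1 : ℂ} {E : ℝ} (hE : E ≠ 0) (hu : u * conj u = 1)
    (hc : u.re < -15 / 32)
    (e3 : b0 * conj β1 + u * (conj b1 * β0) = 0)
    (e2 : u * (conj b0 * β0 + conj b1 * β1) + u * (conj b0 * β1)
      + (b0 * conj β0 + b1 * conj β1) = 0)
    (e1 : u * (conj b0 * β0 + conj b1 * β1) + E * (b1 * conj b0 + β1 * conj β0) = 0)
    (e0 : u * (conj b1 * β0) + conj u * (b1 * conj β0)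
      + E * (b0 * conj b0 + b1 * conj b1 + β0 * conj β0 + β1 * conj β1) = 0) :
    b0 = 0 ∧ b1 = 0 ∧ β0 = 0 ∧ β1 = 0 := by
  have hE' : (E : ℂ) ≠ 0 := by exact_mod_cast hE
  have hu0 : u ≠ 0 := by rintro rfl; simp at hu
  have e1c := congrArg conj e1
  have e2c := congrArg conj e2
  have e3c := congrArg conj e3
  simp only [map_add, map_mul, Complex.conj_conj, Complex.conj_ofReal, map_zero] at e1c e2c e3c
  set D : ℂ := b1 * conj b0 + β1 * conj β0 with hD
  set D' : ℂ := conj b1 * b0 + conj β1 * β0 with hD'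
  -- u c = E (D + u D')
  have k1 : u * (conj b0 * β1) = E * (D + u * D') := by
    linear_combination e2 - e1 - u * e1c + (b0 * conj β0 + b1 * conj β1) * hu
  have k2 : b0 * conj β1 = E * (D + u * D') := by
    have k1c := congrArg conj k1
    simp only [map_add, map_mul, Complex.conj_conj, Complex.conj_ofReal, hD, hD'] at k1c
    linear_combination u * k1c - (b0 * conj β1 - E * D) * hu
  have k3 : conj b1 * β0 = - (conj b0 * β1) := by
    have : u * (conj b1 * β0 + conj b0 * β1) = 0 := by linear_combination e3 + k1 - k2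
    rcases mul_eq_zero.1 this with h | h
    · exact absurd h hu0
    · linear_combination h
  have k4 : b0 * conj b0 + b1 * conj b1 + β0 * conj β0 + β1 * conj β1
      = (D + u * D') + (D' + conj u * D) := by
    have k2c := congrArg conj k2
    simp only [map_add, map_mul, Complex.conj_conj, Complex.conj_ofReal, hD, hD'] at k2c
    apply mul_left_cancel₀ hE'
    linear_combination e0 - e3 - e3c + k2 + k2c
  have fin : D + u * D' = 0 → b0 = 0 ∧ b1 = 0 ∧ β0 = 0 ∧ β1 = 0 := by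
    intro h0
    have h0c := congrArg conj h0
    simp only [map_add, map_mul, Complex.conj_conj, hD, hD', map_zero] at h0c
    have hN : b0 * conj b0 + b1 * conj b1 + β0 * conj β0 + β1 * conj β1 = 0 := by
      linear_combination k4 + h0 + h0c
    simp only [Complex.mul_conj] at hN
    have hN' : Complex.normSq b0 + Complex.normSq b1 + Complex.normSq β0 + Complex.normSq β1
        = 0 := by exact_mod_cast hN
    have n0 := Complex.normSq_nonneg b0
    have n1 := Complex.normSq_nonneg b1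
    have n2 := Complex.normSq_nonneg β0
    have n3 := Complex.normSq_nonneg β1
    exact ⟨Complex.normSq_eq_zero.1 (by linarith), Complex.normSq_eq_zero.1 (by linarith),
      Complex.normSq_eq_zero.1 (by linarith), Complex.normSq_eq_zero.1 (by linarith)⟩
  by_cases hc0 : b0 * conj β1 = 0
  · apply fin
    rw [hc0] at k2
    rcases mul_eq_zero.1 k2.symm with h | h
    · exact absurd h hE'
    · exact h
  exfalso
  have hb0 : b0 ≠ 0 := fun h => hc0 (by simp [h])
  have hβ1 : β1 ≠ 0 := fun h => hc0 (by simp [h])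
  have hb0c : conj b0 ≠ 0 := by simpa using hb0
  obtain ⟨t, ht⟩ : ∃ t : ℂ, β0 = t * conj b0 := ⟨β0 / conj b0, by field_simp⟩
  have ht1 : β1 = - (t * conj b1) := by
    apply mul_left_cancel₀ hb0c
    rw [ht] at k3
    linear_combination k3
  have ht0 : t ≠ 0 := by rintro rfl; exact hβ1 (by simpa using ht1)
  have hb1 : b1 ≠ 0 := by rintro rfl; exact hβ1 (by simpa using ht1)
  have htc : conj t ≠ 0 := by simpa using ht0
  -- modulus relation
  have m1 : u * (t * (conj b0 ^ 2 - conj b1 ^ 2 - conj b0 * conj b1))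
      = - (conj t * (b0 ^ 2 - b1 ^ 2)) := by
    rw [ht, ht1] at e2
    simp only [map_mul, map_neg, Complex.conj_conj] at e2
    linear_combination e2
  have m1c := congrArg conj m1
  simp only [map_mul, map_neg, map_sub, map_pow, Complex.conj_conj] at m1c
  have m2 : (b0 * conj b0) * (b1 * conj b1)
      = (b0 * conj b1 + conj b0 * b1) * (b0 * conj b0 - b1 * conj b1) := by
    have m3 : (t * conj t) * ((conj b0 ^ 2 - conj b1 ^ 2 - conj b0 * conj b1)
        * (b0 ^ 2 - b1 ^ 2 - b0 * b1)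
        - (b0 ^ 2 - b1 ^ 2) * (conj b0 ^ 2 - conj b1 ^ 2)) = 0 := by
      have := congrArg₂ (fun x y : ℂ => x * y) m1 m1c
      linear_combination this - (t * conj t) * (conj b0 ^ 2 - conj b1 ^ 2 - conj b0 * conj b1)
        * (b0 ^ 2 - b1 ^ 2 - b0 * b1) * hu
    rcases mul_eq_zero.1 m3 with h | h
    · exact absurd h (mul_ne_zero ht0 htc)
    · linear_combination h
  have m4 : (1 + t * conj t) * (b0 * conj b0 + b1 * conj b1)
      = (1 + conj u) * (b1 * conj b0 - t * conj t * (conj b1 * b0))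
        + (1 + u) * (conj b1 * b0 - t * conj t * (b1 * conj b0)) := by
    rw [hD, hD', ht, ht1] at k4
    simp only [map_mul, map_neg, Complex.conj_conj] at k4
    linear_combination k4
  have hcs : u.re ^ 2 + u.im ^ 2 = 1 := by
    have := congrArg Complex.re hu
    simp at this
    nlinarith
  refine real_core (P := Complex.normSq b0) (Q := Complex.normSq b1)
    (R := (b1 * conj b0).re) (W := (b1 * conj b0).im) (τ := Complex.normSq t)
    (c := u.re) (s := u.im) (Complex.normSq_pos.2 hb0) (Complex.normSq_pos.2 hb1)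
    (Complex.normSq_nonneg t) hcs hc ?_ ?_ ?_
  · simp [Complex.normSq_apply]; ring
  · have := congrArg Complex.re m2
    simp [Complex.normSq_apply] at this ⊢
    linear_combination this
  · have := congrArg Complex.re m4
    simp [Complex.normSq_apply] at this ⊢
    linear_combination this

/-- no decaying solution of nonzero energy when `Re u < -15/32` -/
theorem no_sol_ne {u : ℂ} {E : ℝ} {a b : ℤ → ℂ} (h : IsSol u E a b)
    (ha : Tendsto a atTop (𝓝 0)) (hb : Tendsto b atTop (𝓝 0)) (hE : E ≠ 0)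
    (hu : u * conj u = 1) (hc : u.re < -15 / 32) : ∀ n, a n = 0 ∧ b n = 0 := by
  have hu0 : u ≠ 0 := by rintro rfl; simp at hu
  have w1 := wr_zero h ha hb (d := 1) (by norm_num)
  have w2 := wr_zero h ha hb (d := 2) (by norm_num)
  have w3 := wr_zero h ha hb (d := 3) (by norm_num)
  have w4 := wr_zero h ha hb (d := 4) (by norm_num)
  have A0 := h.eqA 0 le_rfl
  have A1 := h.eqA 1 (by norm_num)
  have B0 := h.eqB 0 le_rfl
  have B1 := h.eqB 1 (by norm_num)
  norm_num [h.a_neg (-1) (by norm_num), h.a_neg (-2) (by norm_num),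
    h.b_neg (-1) (by norm_num), h.b_neg (-2) (by norm_num)] at w1 w2 w3 w4 A0 A1 B0 B1
  have hb2 : b 2 = u * (E * a 0) := by linear_combination u * A0 - b 2 * hu
  have hb3 : b 3 = u * (E * a 1 - b 0) := by linear_combination u * A1 - b 3 * hu
  have ha2 : a 2 = E * b 0 - a 1 := by linear_combination B0
  have ha3 : a 3 = E * b 1 - E * b 0 + a 1 := by linear_combination B1 - B0
  rw [hb2, ha2] at w3
  rw [hb2, hb3, ha2, ha3] at w4
  have w1c := congrArg conj w1
  have w2c := congrArg conj w2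
  have w3c := congrArg conj w3
  simp only [map_add, map_mul, map_sub, Complex.conj_conj, Complex.conj_ofReal,
    map_zero] at w1c w2c w3c
  have e3 : b 0 * conj (a 0 + a 1) + u * (conj (b 1) * a 0) = 0 := by
    simp only [map_add]; linear_combination w1
  have e2 : u * (conj (b 0) * a 0 + conj (b 1) * (a 0 + a 1)) + u * (conj (b 0) * (a 0 + a 1))
      + (b 0 * conj (a 0) + b 1 * conj (a 0 + a 1)) = 0 := by
    simp only [map_add]
    linear_combination u * w2c + u * w1c
      - (b 0 * conj (a 0) + b 1 * conj (a 1) + b 1 * conj (a 0)) * hu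
  have e1 : u * (conj (b 0) * a 0 + conj (b 1) * (a 0 + a 1))
      + E * (b 1 * conj (b 0) + (a 0 + a 1) * conj (a 0)) = 0 := by
    linear_combination u * w3c + u * w2c - w1
      - ((a 0 + a 1) * E * conj (a 0) + b 0 * conj (a 1) + b 1 * (E * conj (b 0) - conj (a 1))
        + b 0 * conj (a 0) + b 1 * conj (a 1)) * hu
  have e0 : u * (conj (b 1) * a 0) + conj u * (b 1 * conj (a 0))
      + E * (b 0 * conj (b 0) + b 1 * conj (b 1) + a 0 * conj (a 0)
        + (a 0 + a 1) * conj (a 0 + a 1)) = 0 := by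
    simp only [map_add]
    linear_combination conj u * w4 + conj u * w3 + w1
      - ((conj (a 0) + conj (a 1)) * (E * a 1 - b 0) + conj (a 0) * E * a 0
        + conj (b 0) * (E * b 0 - a 1) + conj (b 1) * (E * b 1 - E * b 0 + a 1)
        + (conj (a 0) + conj (a 1)) * E * a 0 + conj (b 0) * a 1
        + conj (b 1) * (E * b 0 - a 1)) * hu
  obtain ⟨z0, z1, z2, z3⟩ := alg_core hE hu hc e3 e2 e1 e0
  exact zero_of_init h hu0 z2 (by linear_combination z3 - z2) z0 z1

/-- a monic quartic has a root near an approximate root -/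
theorem exists_root_near (c0 c1 c3 z : ℂ) (δ : ℝ) (hδ : 0 ≤ δ)
    (h : ‖z ^ 4 + c3 * z ^ 3 + c1 * z + c0‖ ≤ δ ^ 4) :
    ∃ r : ℂ, r ^ 4 + c3 * r ^ 3 + c1 * r + c0 = 0 ∧ ‖r - z‖ ≤ δ := by
  open Polynomial in
  let p : ℂ[X] := X ^ 4 + C c3 * X ^ 3 + C c1 * X + C c0
  have hm : p.Monic := by unfold p; monicity!
  have hd : p.natDegree = 4 := by unfold p; compute_degree!
  have hs : p.Splits := IsAlgClosed.splits p
  have hcard : p.roots.card = 4 := by rw [← hd]; exact hs.natDegree_eq_card_roots.symm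
  have hev : ∀ x, p.eval x = x ^ 4 + c3 * x ^ 3 + c1 * x + c0 := by intro x; simp [p]
  have hprod := hs.eval_eq_prod_roots_of_monic hm z
  obtain ⟨r1, r2, r3, r4, hr⟩ := Multiset.card_eq_four.1 hcard
  have hroot : ∀ r ∈ p.roots, r ^ 4 + c3 * r ^ 3 + c1 * r + c0 = 0 := by
    intro r hr'
    rw [← hev]
    exact (Polynomial.mem_roots hm.ne_zero).1 hr'
  by_contra hcon
  push Not at hcon
  have g : ∀ r ∈ p.roots, δ < ‖z - r‖ := fun r hr' => by
    rw [norm_sub_rev]; exact hcon r (hroot r hr')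
  have g1 := g r1 (by simp [hr])
  have g2 := g r2 (by simp [hr])
  have g3 := g r3 (by simp [hr])
  have g4 := g r4 (by simp [hr])
  rw [hev, hr] at hprod
  simp only [Multiset.insert_eq_cons, Multiset.map_cons, Multiset.map_singleton,
    Multiset.prod_cons, Multiset.prod_singleton] at hprod
  rw [hprod, norm_mul, norm_mul, norm_mul] at h
  have : δ ^ 4 < ‖z - r1‖ * (‖z - r2‖ * (‖z - r3‖ * ‖z - r4‖)) := by
    have e : δ ^ 4 = δ * (δ * (δ * δ)) := by ring
    rw [e]
    gcongr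
  linarith

theorem tendsto_pow_mul {ω : ℂ} (hω : ‖ω‖ ≤ 1) {V : ℤ → ℂ} (hV : Tendsto V atTop (𝓝 0)) :
    Tendsto (fun N : ℤ => ω ^ N.toNat * V N) atTop (𝓝 0) := by
  rw [tendsto_zero_iff_norm_tendsto_zero] at hV ⊢
  refine squeeze_zero (fun _ => norm_nonneg _) (fun N => ?_) hV
  rw [norm_mul, norm_pow]
  exact mul_le_of_le_one_left (norm_nonneg _) (pow_le_one₀ (norm_nonneg _) hω)

theorem zero_B {u ω : ℂ} {a b : ℤ → ℂ} (h : IsSol u 0 a b) (hb : Tendsto b atTop (𝓝 0))
    (hω : ‖ω‖ ≤ 1) (hr : ω ^ 4 + ω ^ 3 + conj u = 0) : conj u * (b 0 + ω * b 1) = 0 := by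
  have B := tendsto_shift hb
  let V : ℤ → ℂ := fun N => conj u * (b (N + 0) + ω * b (N + 1))
    - ω ^ 2 * (b (N + (-2)) + (1 + ω) * b (N + (-1)))
  have hV : Tendsto V atTop (𝓝 0) := by
    have := ((((B 0).add ((B 1).const_mul ω)).const_mul (conj u)).sub
      (((B (-2)).add ((B (-1)).const_mul (1 + ω))).const_mul (ω ^ 2)))
    refine this.trans ?_
    simp
  have := const_of_step (W := fun N : ℤ => ω ^ N.toNat * V N) (fun N hN => by
    have e := h.eqA N hN
    have e0 : (N + 1).toNat = N.toNat + 1 := by omega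
    simp only [V, e0, pow_succ]
    have e1 : N + 1 + 0 = N + 1 := by ring
    have e2 : N + 1 + 1 = N + 2 := by ring
    have e3 : N + 1 + -2 = N - 1 := by ring
    have e4 : N + 1 + -1 = N := by ring
    have f1 : N + 0 = N := by ring
    have f3 : N + -2 = N - 2 := by ring
    have f4 : N + -1 = N - 1 := by ring
    rw [e1, e2, e3, e4, f1, f3, f4]
    simp only [Complex.ofReal_zero, zero_mul] at e
    linear_combination ω ^ N.toNat * ω ^ 2 * e - ω ^ N.toNat * b N * hr)
    (tendsto_pow_mul hω hV)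
  simpa [V, h.b_neg (-1) (by norm_num), h.b_neg (-2) (by norm_num)] using this

theorem zero_A {u ω : ℂ} {a b : ℤ → ℂ} (h : IsSol u 0 a b) (ha : Tendsto a atTop (𝓝 0))
    (hω : ‖ω‖ ≤ 1) (hr : u * ω ^ 4 + ω + 1 = 0) : a 0 + ω * (a 0 + a 1) = 0 := by
  have A := tendsto_shift ha
  let V : ℤ → ℂ := fun N => a (N + 0) + ω * (a (N + 0) + a (N + 1))
    - u * ω ^ 2 * (a (N + (-2)) + ω * a (N + (-1)))
  have hV : Tendsto V atTop (𝓝 0) := by
    have := (((A 0).add (((A 0).add (A 1)).const_mul ω)).sub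
      (((A (-2)).add ((A (-1)).const_mul ω)).const_mul (u * ω ^ 2)))
    refine this.trans ?_
    simp
  have := const_of_step (W := fun N : ℤ => ω ^ N.toNat * V N) (fun N hN => by
    have e := h.eqB N hN
    have e0 : (N + 1).toNat = N.toNat + 1 := by omega
    simp only [V, e0, pow_succ]
    have e1 : N + 1 + 0 = N + 1 := by ring
    have e2 : N + 1 + 1 = N + 2 := by ring
    have e3 : N + 1 + -2 = N - 1 := by ring
    have e4 : N + 1 + -1 = N := by ring
    have f1 : N + 0 = N := by ring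
    have f3 : N + -2 = N - 2 := by ring
    have f4 : N + -1 = N - 1 := by ring
    rw [e1, e2, e3, e4, f1, f3, f4]
    simp only [Complex.ofReal_zero, zero_mul] at e
    linear_combination ω ^ N.toNat * ω ^ 2 * e - ω ^ N.toNat * a N * hr)
    (tendsto_pow_mul hω hV)
  simpa [V, h.a_neg (-1) (by norm_num), h.a_neg (-2) (by norm_num)] using this

theorem norm_le_of_sq {z : ℂ} {r : ℝ} (hr : 0 ≤ r) (h : z.re ^ 2 + z.im ^ 2 ≤ r ^ 2) :
    ‖z‖ ≤ r := by
  have : ‖z‖ ^ 2 ≤ r ^ 2 := by rw [Complex.sq_norm, Complex.normSq_apply]; nlinarith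
  exact le_of_sq_le_sq (by simpa using this) hr |>.trans le_rfl

theorem near_facts {r z : ℂ} {δ ρ : ℝ} (h : ‖r - z‖ ≤ δ) (hz : ‖z‖ ≤ ρ) (hs : ρ + δ ≤ 1) :
    ‖r‖ ≤ 1 ∧ z.im - δ ≤ r.im ∧ r.im ≤ z.im + δ := by
  have h1 : ‖r‖ ≤ ‖z‖ + ‖r - z‖ := by
    have := norm_add_le z (r - z)
    simpa using this
  have h2 := (Complex.abs_im_le_norm (r - z)).trans h
  rw [Complex.sub_im, abs_le] at h2
  exact ⟨by linarith, by linarith, by linarith⟩

theorem no_sol_zero_pos {a b : ℤ → ℂ} (h : IsSol ⟨-8 / 17, 15 / 17⟩ 0 a b)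
    (ha : Tendsto a atTop (𝓝 0)) (hb : Tendsto b atTop (𝓝 0)) : ∀ n, a n = 0 ∧ b n = 0 := by
  set u : ℂ := ⟨-8 / 17, 15 / 17⟩ with hu
  have hu1 : u * conj u = 1 := by
    apply Complex.ext <;> simp [hu] <;> norm_num
  have hu0 : u ≠ 0 := by rintro h0; rw [h0] at hu1; simp at hu1
  have huc : conj u ≠ 0 := by simpa using hu0
  obtain ⟨r1, hr1, d1⟩ := exists_root_near (conj u) 0 1 ⟨6256 / 100000, -89413 / 100000⟩ (1 / 10)
    (by norm_num) (norm_le_of_sq (by norm_num) (by simp [hu, pow_succ]; norm_num))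
  obtain ⟨r2, hr2, d2⟩ := exists_root_near (conj u) 0 1 ⟨78208 / 100000, 25330 / 100000⟩ (1 / 10)
    (by norm_num) (norm_le_of_sq (by norm_num) (by simp [hu, pow_succ]; norm_num))
  obtain ⟨r3, hr3, d3⟩ := exists_root_near (conj u) (conj u) 0
    ⟨-5066749079824 / 10000000000000, 8595291715845 / 10000000000000⟩ (1 / 1000)
    (by norm_num) (norm_le_of_sq (by norm_num) (by simp [hu, pow_succ]; norm_num))
  obtain ⟨r4, hr4, d4⟩ := exists_root_near (conj u) (conj u) 0
    ⟨-72846 / 100000, -12139 / 100000⟩ (1 / 10)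
    (by norm_num) (norm_le_of_sq (by norm_num) (by simp [hu, pow_succ]; norm_num))
  obtain ⟨n1, l1, g1⟩ := near_facts (ρ := 9 / 10) d1 (norm_le_of_sq (by norm_num) (by norm_num))
    (by norm_num)
  obtain ⟨n2, l2, g2⟩ := near_facts (ρ := 9 / 10) d2 (norm_le_of_sq (by norm_num) (by norm_num))
    (by norm_num)
  obtain ⟨n3, l3, g3⟩ := near_facts (ρ := 998 / 1000) d3
    (norm_le_of_sq (by norm_num) (by norm_num)) (by norm_num)
  obtain ⟨n4, l4, g4⟩ := near_facts (ρ := 9 / 10) d4 (norm_le_of_sq (by norm_num) (by norm_num))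
    (by norm_num)
  have h12 : r1 - r2 ≠ 0 := by
    intro e
    have := congrArg Complex.im e
    simp at this l2 g1
    linarith
  have h34 : r3 - r4 ≠ 0 := by
    intro e
    have := congrArg Complex.im e
    simp at this l3 g4
    linarith
  have B1 := (mul_eq_zero.1 (zero_B h hb n1 (by linear_combination hr1))).resolve_left huc
  have B2 := (mul_eq_zero.1 (zero_B h hb n2 (by linear_combination hr2))).resolve_left huc
  have A3 := zero_A h ha n3 (by linear_combination u * hr3 - (r3 + 1) * hu1)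
  have A4 := zero_A h ha n4 (by linear_combination u * hr4 - (r4 + 1) * hu1)
  have b1 : b 1 = 0 := by
    have : (r1 - r2) * b 1 = 0 := by linear_combination B1 - B2
    exact (mul_eq_zero.1 this).resolve_left h12
  have a01 : a 0 + a 1 = 0 := by
    have : (r3 - r4) * (a 0 + a 1) = 0 := by linear_combination A3 - A4
    exact (mul_eq_zero.1 this).resolve_left h34
  have a0 : a 0 = 0 := by linear_combination A3 - r3 * a01
  exact zero_of_init h hu0 a0 (by linear_combination a01 - a0)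
    (by linear_combination B1 - r1 * b1) b1

theorem IsSol.conj {u : ℂ} {E : ℝ} {a b : ℤ → ℂ} (h : IsSol u E a b) :
    IsSol (conj u) E (fun n => conj (a n)) (fun n => conj (b n)) where
  a_neg n hn := by simp [h.a_neg n hn]
  b_neg n hn := by simp [h.b_neg n hn]
  eqA n hn := by simpa using congrArg (starRingEnd ℂ) (h.eqA n hn)
  eqB n hn := by simpa using congrArg (starRingEnd ℂ) (h.eqB n hn)

/-- no decaying solution at all when `|u| = 1` and `Re u = -8/17` -/
theorem no_sol {u : ℂ} {E : ℝ} {a b : ℤ → ℂ} (h : IsSol u E a b)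
    (ha : Tendsto a atTop (𝓝 0)) (hb : Tendsto b atTop (𝓝 0))
    (hu : u.re ^ 2 + u.im ^ 2 = 1) (hc : u.re = -8 / 17) : ∀ n, a n = 0 ∧ b n = 0 := by
  by_cases hE : E = 0
  · subst hE
    have him : (u.im - 15 / 17) * (u.im + 15 / 17) = 0 := by rw [hc] at hu; linarith
    rcases mul_eq_zero.1 him with h1 | h1
    · have : u = ⟨-8 / 17, 15 / 17⟩ := Complex.ext hc (by linarith)
      rw [this] at h
      exact no_sol_zero_pos h ha hb
    · have : conj u = ⟨-8 / 17, 15 / 17⟩ := Complex.ext (by simpa using hc) (by simp; linarith)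
      have h' := h.conj
      rw [this] at h'
      have ha' := tendsto_shift_conj ha 0
      have hb' := tendsto_shift_conj hb 0
      simp only [add_zero] at ha' hb'
      intro n
      simpa using no_sol_zero_pos h' ha' hb' n
  · refine no_sol_ne h ha hb hE ?_ (by rw [hc]; norm_num)
    rw [Complex.mul_conj, Complex.normSq_apply]
    have : u.re * u.re + u.im * u.im = 1 := by linarith
    rw [this]; simp

end Pool.Agent.Lib.MP_1b99aa_mp
end

-- part Pool.Agent.Lib.MP_1b99aa_mp.Geom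
section

/-!
The edge (3,1): translation between functions on the half honeycomb and pairs of sequences.
-/

set_option autoImplicit false

namespace Pool.Agent.Lib.MP_1b99aa_mp

open Filter Topology ComplexConjugate

/-- point with real lattice coordinates -/
noncomputable def pt (s t : ℝ) : ℂ := (s : ℂ) * gen1 + (t : ℂ) * gen2

theorem sq3 : Real.sqrt 3 * Real.sqrt 3 = 3 := Real.mul_self_sqrt (by norm_num)
theorem sq3_pos : 0 < Real.sqrt 3 := Real.sqrt_pos.2 (by norm_num)

theorem pt_re (s t : ℝ) : (pt s t).re = Real.sqrt 3 / 2 * (s + t) := by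
  simp [pt, gen1, gen2]; ring
theorem pt_im (s t : ℝ) : (pt s t).im = (s - t) / 2 := by
  simp [pt, gen1, gen2]; ring

theorem pt_add (s t s' t' : ℝ) : pt s t + pt s' t' = pt (s + s') (t + t') := by
  simp [pt]; ring
theorem pt_sub (s t s' t' : ℝ) : pt s t - pt s' t' = pt (s - s') (t - t') := by
  simp [pt]; ring
theorem pt_zsmul (j : ℤ) (s t : ℝ) : j • pt s t = pt (j * s) (j * t) := by
  simp [pt]; ring

theorem pt_inj {s t s' t' : ℝ} (h : pt s t = pt s' t') : s = s' ∧ t = t' := by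
  have h1 := congrArg Complex.re h
  have h2 := congrArg Complex.im h
  rw [pt_re, pt_re] at h1
  rw [pt_im, pt_im] at h2
  have h3 : s + t = s' + t' := mul_left_cancel₀ (by have := sq3_pos; positivity) h1
  constructor <;> linarith

theorem dist_pt (s t s' t' : ℝ) : dist (pt s t) (pt s' t') = 1 / Real.sqrt 3 ↔
    (s - s') ^ 2 + (s - s') * (t - t') + (t - t') ^ 2 = 1 / 3 := by
  have h1 : dist (pt s t) (pt s' t') ^ 2
      = (s - s') ^ 2 + (s - s') * (t - t') + (t - t') ^ 2 := by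
    rw [dist_eq_norm, pt_sub, Complex.sq_norm, Complex.normSq_apply, pt_re, pt_im]
    linear_combination ((s - s' + (t - t')) ^ 2 / 4) * sq3
  have h2 : (1 / Real.sqrt 3) ^ 2 = 1 / 3 := by
    rw [div_pow, sq (Real.sqrt 3), sq3]; norm_num
  rw [← h1, ← h2]
  exact (pow_left_inj₀ dist_nonneg (by have := sq3_pos; positivity) two_ne_zero).symm

/-- A-sites -/
noncomputable def posA (m n : ℤ) : ℂ := pt m n
/-- B-sites -/
noncomputable def posB (m n : ℤ) : ℂ := pt (m + 1 / 3) (n + 1 / 3)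

theorem delta_eq : (⟨1 / Real.sqrt 3, 0⟩ : ℂ) = pt (1 / 3) (1 / 3) := by
  apply Complex.ext
  · rw [pt_re]
    have := sq3_pos
    field_simp
    nlinarith [sq3]
  · rw [pt_im]; norm_num

theorem mem_honeycomb (ω : ℂ) : ω ∈ honeycomb ↔ ∃ m n : ℤ, ω = posA m n ∨ ω = posB m n := by
  have e1 : ∀ m n : ℤ, (m : ℂ) * gen1 + (n : ℂ) * gen2 = posA m n := by
    intro m n; simp [posA, pt]
  have e2 : ∀ m n : ℤ, (⟨1 / Real.sqrt 3, 0⟩ : ℂ) + posA m n = posB m n := by
    intro m n; rw [delta_eq, posA, pt_add, posB, add_comm (1 / 3 : ℝ), add_comm (1 / 3 : ℝ)]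
  simp only [honeycomb, Set.mem_ofPred_eq, e1, e2]

theorem posA_inj {m n m' n' : ℤ} (h : posA m n = posA m' n') : m = m' ∧ n = n' := by
  obtain ⟨h1, h2⟩ := pt_inj h
  exact ⟨by exact_mod_cast h1, by exact_mod_cast h2⟩

theorem posB_inj {m n m' n' : ℤ} (h : posB m n = posB m' n') : m = m' ∧ n = n' := by
  obtain ⟨h1, h2⟩ := pt_inj h
  exact ⟨by exact_mod_cast (add_right_cancel h1), by exact_mod_cast (add_right_cancel h2)⟩

theorem posA_ne_posB (m n m' n' : ℤ) : posA m n ≠ posB m' n' := by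
  intro h
  obtain ⟨h1, -⟩ := pt_inj h
  have : ((3 * m : ℤ) : ℝ) = ((3 * m' + 1 : ℤ) : ℝ) := by push_cast; linarith
  have : 3 * m = 3 * m' + 1 := by exact_mod_cast this
  omega

theorem not_dist_int (x y : ℤ) : ¬ ((x : ℝ) ^ 2 + x * y + (y : ℝ) ^ 2 = 1 / 3) := by
  intro h
  have : ((3 * (x ^ 2 + x * y + y ^ 2) : ℤ) : ℝ) = ((1 : ℤ) : ℝ) := by push_cast; linarith
  have : 3 * (x ^ 2 + x * y + y ^ 2) = 1 := by exact_mod_cast this
  omega

theorem dist_AA (m n m' n' : ℤ) : dist (posA m n) (posA m' n') ≠ 1 / Real.sqrt 3 := by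
  rw [Ne, posA, posA, dist_pt]
  have := not_dist_int (m - m') (n - n')
  push_cast at this
  exact this

theorem dist_BB (m n m' n' : ℤ) : dist (posB m n) (posB m' n') ≠ 1 / Real.sqrt 3 := by
  rw [Ne, posB, posB, dist_pt]
  have := not_dist_int (m - m') (n - n')
  push_cast at this
  intro h
  apply this
  linarith

theorem dist_BA (m n m' n' : ℤ) : dist (posB m n) (posA m' n') = 1 / Real.sqrt 3 ↔
    (m = m' ∧ n = n') ∨ (m = m' - 1 ∧ n = n') ∨ (m = m' ∧ n = n' - 1) := by
  rw [posB, posA, dist_pt]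
  obtain ⟨x, rfl⟩ : ∃ x, m = m' + x := ⟨m - m', by ring⟩
  obtain ⟨y, rfl⟩ : ∃ y, n = n' + y := ⟨n - n', by ring⟩
  have key : x ^ 2 + x * y + y ^ 2 + x + y = 0 ↔
      (x = 0 ∧ y = 0) ∨ (x = -1 ∧ y = 0) ∨ (x = 0 ∧ y = -1) := by
    constructor
    · intro h
      have hx1 : -1 ≤ x := by nlinarith [sq_nonneg (x + 2 * y + 1)]
      have hx2 : x ≤ 0 := by nlinarith [sq_nonneg (x + 2 * y + 1)]
      have hy1 : -1 ≤ y := by nlinarith [sq_nonneg (y + 2 * x + 1)]
      have hy2 : y ≤ 0 := by nlinarith [sq_nonneg (y + 2 * x + 1)]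
      interval_cases x <;> interval_cases y <;> simp_all
    · rintro (⟨rfl, rfl⟩ | ⟨rfl, rfl⟩ | ⟨rfl, rfl⟩) <;> norm_num
  have e : ((m' + x : ℤ) + 1 / 3 - m' : ℝ) ^ 2
      + ((m' + x : ℤ) + 1 / 3 - m' : ℝ) * ((n' + y : ℤ) + 1 / 3 - n')
      + ((n' + y : ℤ) + 1 / 3 - n' : ℝ) ^ 2 = 1 / 3 ↔ x ^ 2 + x * y + y ^ 2 + x + y = 0 := by
    rw [← Int.cast_inj (α := ℝ)]
    push_cast
    constructor <;> intro h <;> linarith
  rw [e, key]
  omega

/-- period vector -/
noncomputable def vv : ℂ := 3 * gen1 + gen2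
/-- normal vector -/
noncomputable def nu : ℂ := ⟨-2 / Real.sqrt 3, 4⟩
/-- site set -/
def DD : Set ℂ := edgeSites nu 0

theorem vv_eq : vv = pt 3 1 := by simp [vv, pt]

theorem dot_nu (s t : ℝ) : dot nu (pt s t) = s - 3 * t := by
  rw [dot, pt_re, pt_im]
  have := sq3_pos
  simp only [nu]
  field_simp
  ring

theorem posA_mem (m n : ℤ) : posA m n ∈ DD ↔ 0 ≤ m - 3 * n := by
  have : posA m n ∈ honeycomb := (mem_honeycomb _).2 ⟨m, n, Or.inl rfl⟩
  simp only [DD, edgeSites, Set.mem_ofPred_eq, this, true_and]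
  rw [posA, dot_nu, ← Int.cast_le (R := ℝ)]
  push_cast
  rfl

theorem posB_mem (m n : ℤ) : posB m n ∈ DD ↔ 0 ≤ m - 3 * n - 1 := by
  have : posB m n ∈ honeycomb := (mem_honeycomb _).2 ⟨m, n, Or.inr rfl⟩
  simp only [DD, edgeSites, Set.mem_ofPred_eq, this, true_and]
  rw [posB, dot_nu]
  constructor
  · intro h
    have : ((-1 : ℤ) : ℝ) < ((m - 3 * n - 1 : ℤ) : ℝ) := by push_cast; linarith
    have : -1 < m - 3 * n - 1 := by exact_mod_cast this
    omega
  · intro h
    have : ((0 : ℤ) : ℝ) ≤ ((m - 3 * n - 1 : ℤ) : ℝ) := by exact_mod_cast h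
    push_cast at this
    linarith

theorem posA_add (m n j : ℤ) : posA m n + j • vv = posA (m + 3 * j) (n + j) := by
  rw [vv_eq, pt_zsmul, posA, pt_add, posA]; congr 1 <;> push_cast <;> ring

theorem posB_add (m n j : ℤ) : posB m n + j • vv = posB (m + 3 * j) (n + j) := by
  rw [vv_eq, pt_zsmul, posB, pt_add, posB]; congr 1 <;> push_cast <;> ring

theorem ham_A {ψ : ℂ → ℂ} (h0 : ∀ ω, ω ∉ DD → ψ ω = 0) (m n : ℤ) :
    (∑ᶠ ω' ∈ {ω' | ω' ∈ DD ∧ dist ω' (posA m n) = 1 / Real.sqrt 3}, ψ ω')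
      = ψ (posB m n) + ψ (posB (m - 1) n) + ψ (posB m (n - 1)) := by
  classical
  rw [finsum_mem_eq_sum_of_inter_support_eq ψ
    (t := {posB m n, posB (m - 1) n, posB m (n - 1)})]
  · rw [Finset.sum_insert, Finset.sum_pair, add_assoc]
    · intro h; have := posB_inj h; omega
    · simp only [Finset.mem_insert, Finset.mem_singleton]
      rintro (h | h) <;> (have := posB_inj h; omega)
  · ext ω
    simp only [Set.mem_inter_iff, Set.mem_ofPred_eq, Function.mem_support, Finset.coe_insert,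
      Finset.coe_singleton, Set.mem_insert_iff, Set.mem_singleton_iff]
    constructor
    · rintro ⟨⟨hD, hd⟩, hψ⟩
      refine ⟨?_, hψ⟩
      obtain ⟨x, y, rfl | rfl⟩ := (mem_honeycomb ω).1 hD.1
      · exact absurd hd (dist_AA _ _ _ _)
      · rcases (dist_BA _ _ _ _).1 hd with ⟨rfl, rfl⟩ | ⟨rfl, rfl⟩ | ⟨rfl, rfl⟩ <;> simp
    · rintro ⟨h, hψ⟩
      refine ⟨⟨by_contra fun hn => hψ (h0 ω hn), ?_⟩, hψ⟩
      rcases h with rfl | rfl | rfl <;> rw [dist_BA] <;> simp

theorem ham_B {ψ : ℂ → ℂ} (h0 : ∀ ω, ω ∉ DD → ψ ω = 0) (m n : ℤ) :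
    (∑ᶠ ω' ∈ {ω' | ω' ∈ DD ∧ dist ω' (posB m n) = 1 / Real.sqrt 3}, ψ ω')
      = ψ (posA m n) + ψ (posA (m + 1) n) + ψ (posA m (n + 1)) := by
  classical
  rw [finsum_mem_eq_sum_of_inter_support_eq ψ
    (t := {posA m n, posA (m + 1) n, posA m (n + 1)})]
  · rw [Finset.sum_insert, Finset.sum_pair, add_assoc]
    · intro h; have := posA_inj h; omega
    · simp only [Finset.mem_insert, Finset.mem_singleton]
      rintro (h | h) <;> (have := posA_inj h; omega)
  · ext ω
    simp only [Set.mem_inter_iff, Set.mem_ofPred_eq, Function.mem_support, Finset.coe_insert,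
      Finset.coe_singleton, Set.mem_insert_iff, Set.mem_singleton_iff]
    constructor
    · rintro ⟨⟨hD, hd⟩, hψ⟩
      refine ⟨?_, hψ⟩
      obtain ⟨x, y, rfl | rfl⟩ := (mem_honeycomb ω).1 hD.1
      · rw [dist_comm] at hd
        rcases (dist_BA _ _ _ _).1 hd with ⟨rfl, rfl⟩ | ⟨rfl, rfl⟩ | ⟨rfl, rfl⟩ <;> simp
      · exact absurd hd (dist_BB _ _ _ _)
    · rintro ⟨h, hψ⟩
      refine ⟨⟨by_contra fun hn => hψ (h0 ω hn), ?_⟩, hψ⟩
      rcases h with rfl | rfl | rfl <;> rw [dist_comm, dist_BA] <;> simp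

theorem quasi_zpow {ψ : ℂ → ℂ} {u : ℂ} (hu : u ≠ 0) (h : ∀ ω, ψ (ω + vv) = u * ψ ω) (j : ℤ)
    (ω : ℂ) : ψ (ω + j • vv) = u ^ j * ψ ω := by
  induction j with
  | zero => simp
  | succ i ih => rw [add_smul, one_smul, ← add_assoc, h, ih, zpow_add_one₀ hu]; ring
  | pred i ih =>
    have := h (ω + (-(i : ℤ) - 1) • vv)
    rw [add_assoc, show (-(i : ℤ) - 1) • vv + vv = (-(i : ℤ)) • vv by
      rw [sub_smul, one_smul, sub_add_cancel], ih] at this
    rw [zpow_sub_one₀ hu]
    field_simp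
    linear_combination -this

theorem norm_out {ψ : ℂ → ℂ} {u : ℂ} (hu : ‖u‖ = 1) (h : ∀ ω, ψ (ω + vv) = u * ψ ω) (ω : ℂ) :
    ‖ψ (QuotientAddGroup.mk ω : ℂ ⧸ AddSubgroup.zmultiples vv).out‖ = ‖ψ ω‖ := by
  obtain ⟨⟨_, j, rfl⟩, hj⟩ := QuotientAddGroup.mk_out_eq_add (AddSubgroup.zmultiples vv) ω
  have hu0 : u ≠ 0 := by rintro rfl; simp at hu
  rw [hj]
  change ‖ψ (ω + j • vv)‖ = _
  rw [quasi_zpow hu0 h, norm_mul, norm_zpow, hu]
  simp

/-- representatives of the sites modulo the period -/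
noncomputable def rep : ℤ ⊕ ℤ → ℂ ⧸ AddSubgroup.zmultiples vv
  | Sum.inl n => QuotientAddGroup.mk (posA n 0)
  | Sum.inr n => QuotientAddGroup.mk (posB (n + 1) 0)

theorem mk_eq_iff (x y : ℂ) :
    (QuotientAddGroup.mk x : ℂ ⧸ AddSubgroup.zmultiples vv) = QuotientAddGroup.mk y ↔
      ∃ j : ℤ, x + j • vv = y := by
  rw [QuotientAddGroup.eq, AddSubgroup.mem_zmultiples_iff]
  constructor <;> rintro ⟨j, hj⟩ <;> exact ⟨j, by linear_combination hj⟩

theorem rep_inj : Function.Injective rep := by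
  rintro (m | m) (n | n) h <;> simp only [rep, mk_eq_iff, posA_add, posB_add] at h <;>
    obtain ⟨j, hj⟩ := h
  · have := posA_inj hj
    congr 1; omega
  · exact absurd hj (posA_ne_posB _ _ _ _)
  · exact absurd hj.symm (posA_ne_posB _ _ _ _)
  · have := posB_inj hj
    congr 1; omega

theorem tendsto_of_summable {a : ℤ → ℂ} (h : Summable fun n => ‖a n‖ ^ 2) :
    Tendsto a atTop (𝓝 0) := by
  have h1 : Tendsto (fun n => ‖a n‖ ^ 2) atTop (𝓝 0) :=
    h.tendsto_cofinite_zero.mono_left (by rw [Int.cofinite_eq]; exact le_sup_right)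
  rw [tendsto_zero_iff_norm_tendsto_zero]
  have h2 := h1.sqrt
  simpa using h2

/-- the phase of an angle -/
noncomputable def ph (k : Real.Angle) : ℂ := (k.cos : ℂ) + (k.sin : ℂ) * Complex.I

theorem ph_re (k : Real.Angle) : (ph k).re = k.cos := by simp [ph]
theorem ph_im (k : Real.Angle) : (ph k).im = k.sin := by simp [ph]
theorem ph_sq (k : Real.Angle) : (ph k).re ^ 2 + (ph k).im ^ 2 = 1 := by
  rw [ph_re, ph_im]; exact k.cos_sq_add_sin_sq
theorem ph_mul_conj (k : Real.Angle) : ph k * conj (ph k) = 1 := by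
  rw [Complex.mul_conj, Complex.normSq_apply]
  have := ph_sq k
  have h : (ph k).re * (ph k).re + (ph k).im * (ph k).im = 1 := by linarith
  rw [h]; simp
theorem norm_ph (k : Real.Angle) : ‖ph k‖ = 1 := by
  have h : ‖ph k‖ ^ 2 = 1 ^ 2 := by
    rw [Complex.sq_norm, Complex.normSq_apply]; have := ph_sq k; linarith
  exact (pow_left_inj₀ (norm_nonneg _) zero_le_one two_ne_zero).1 h
theorem ph_ne (k : Real.Angle) : ph k ≠ 0 := by
  intro h; have := norm_ph k; rw [h] at this; simp at this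

/-- no edge state at all when `cos k = -8/17` -/
theorem not_eigen {k : Real.Angle} (hk : k.cos = -8 / 17) (E : ℝ) :
    ¬ IsEdgeEigenvalue vv DD k E := by
  rintro ⟨ψ, hne, h0, hq, hs, he⟩
  change ∀ ω, ψ (ω + vv) = ph k * ψ ω at hq
  have hz := quasi_zpow (ph_ne k) hq
  let a : ℤ → ℂ := fun n => ψ (posA n 0)
  let b : ℤ → ℂ := fun n => ψ (posB (n + 1) 0)
  have hsol : IsSol (ph k) E a b := by
    refine ⟨fun n hn => h0 _ ?_, fun n hn => h0 _ ?_, fun n hn => ?_, fun n hn => ?_⟩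
    · rw [posA_mem]; omega
    · rw [posB_mem]; omega
    · have h1 := he (posA n 0) ((posA_mem _ _).2 (by omega))
      rw [ham_A h0] at h1
      have h2 := hz 1 (posB n (0 - 1))
      rw [posB_add] at h2
      simp only [a, b]
      rw [show n - 1 + 1 = n by ring, show n - 2 + 1 = n - 1 by ring,
        show n + 2 + 1 = n + 3 * 1 by ring]
      rw [show (0 : ℤ) - 1 + 1 = 0 by ring, zpow_one] at h2
      linear_combination h1 + conj (ph k) * h2 + ψ (posB n (0 - 1)) * ph_mul_conj k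
    · have h1 := he (posB (n + 1) 0) ((posB_mem _ _).2 (by omega))
      rw [ham_B h0] at h1
      have h2 := hz 1 (posA (n - 2) 0)
      rw [posA_add, show n - 2 + 3 * 1 = n + 1 by ring, zpow_one] at h2
      simp only [a, b]
      rw [show n + 2 = n + 1 + 1 by ring]
      linear_combination h1 - h2
  have hsum := hs.comp_injective rep_inj
  have ha : Summable fun n => ‖a n‖ ^ 2 := by
    have := hsum.comp_injective Sum.inl_injective
    refine this.congr fun n => ?_
    simp only [Function.comp, rep, norm_out (norm_ph k) hq, a]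
  have hb : Summable fun n => ‖b n‖ ^ 2 := by
    have := hsum.comp_injective Sum.inr_injective
    refine this.congr fun n => ?_
    simp only [Function.comp, rep, norm_out (norm_ph k) hq, b]
  have hz0 := no_sol hsol (tendsto_of_summable ha) (tendsto_of_summable hb) (ph_sq k)
    (by rw [ph_re, hk])
  apply hne
  funext ω
  by_cases hD : ω ∈ DD
  · obtain ⟨m, n, rfl | rfl⟩ := (mem_honeycomb ω).1 hD.1
    · have := hz n (posA (m - 3 * n) 0)
      rw [posA_add, sub_add_cancel, zero_add] at this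
      rw [this, show ψ (posA (m - 3 * n) 0) = a (m - 3 * n) from rfl, (hz0 _).1]
      simp
    · have := hz n (posB (m - 3 * n - 1 + 1) 0)
      rw [posB_add, show m - 3 * n - 1 + 1 + 3 * n = m by ring, zero_add] at this
      rw [this, show ψ (posB (m - 3 * n - 1 + 1) 0) = b (m - 3 * n - 1) from rfl, (hz0 _).2]
      simp
  · exact h0 ω hD

/-- position of a labelled site -/
noncomputable def pos : (ℤ × ℤ) ⊕ (ℤ × ℤ) → ℂ
  | Sum.inl p => posA p.1 p.2
  | Sum.inr p => posB p.1 p.2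

theorem pos_inj : Function.Injective pos := by
  rintro (⟨m, n⟩ | ⟨m, n⟩) (⟨m', n'⟩ | ⟨m', n'⟩) h <;> simp only [pos] at h
  · obtain ⟨rfl, rfl⟩ := posA_inj h; rfl
  · exact absurd h (posA_ne_posB _ _ _ _)
  · exact absurd h.symm (posA_ne_posB _ _ _ _)
  · obtain ⟨rfl, rfl⟩ := posB_inj h; rfl

/-- a square-summable solution gives an edge state -/
theorem eigen_of_sol {k : Real.Angle} {E : ℝ} {a b : ℤ → ℂ} (h : IsSol (ph k) E a b)
    (ha : Summable fun n => ‖a n‖ ^ 2) (hb : Summable fun n => ‖b n‖ ^ 2) (hne : ∃ n, b n ≠ 0) :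
    IsEdgeEigenvalue vv DD k E := by
  classical
  have hu := ph_ne k
  let g : (ℤ × ℤ) ⊕ (ℤ × ℤ) → ℂ := Sum.elim (fun p => ph k ^ p.2 * a (p.1 - 3 * p.2))
    (fun p => ph k ^ p.2 * b (p.1 - 3 * p.2 - 1))
  let ψ : ℂ → ℂ := Function.extend pos g 0
  have hA : ∀ m n : ℤ, ψ (posA m n) = ph k ^ n * a (m - 3 * n) := fun m n =>
    pos_inj.extend_apply g 0 (Sum.inl (m, n))
  have hB : ∀ m n : ℤ, ψ (posB m n) = ph k ^ n * b (m - 3 * n - 1) := fun m n =>
    pos_inj.extend_apply g 0 (Sum.inr (m, n))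
  have hO : ∀ ω, ω ∉ honeycomb → ψ ω = 0 := by
    intro ω hω
    refine Function.extend_apply' (f := pos) g (0 : ℂ → ℂ) ω ?_
    rintro ⟨⟨m, n⟩ | ⟨m, n⟩, rfl⟩
    · exact hω ((mem_honeycomb _).2 ⟨m, n, Or.inl rfl⟩)
    · exact hω ((mem_honeycomb _).2 ⟨m, n, Or.inr rfl⟩)
  have h0 : ∀ ω, ω ∉ DD → ψ ω = 0 := by
    intro ω hω
    by_cases hh : ω ∈ honeycomb
    · obtain ⟨m, n, rfl | rfl⟩ := (mem_honeycomb ω).1 hh
      · rw [posA_mem] at hω
        rw [hA, h.a_neg _ (by omega), mul_zero]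
      · rw [posB_mem] at hω
        rw [hB, h.b_neg _ (by omega), mul_zero]
    · exact hO ω hh
  have hq : ∀ ω, ψ (ω + vv) = ph k * ψ ω := by
    intro ω
    by_cases hh : ω ∈ honeycomb
    · obtain ⟨m, n, rfl | rfl⟩ := (mem_honeycomb ω).1 hh
      · have := posA_add m n 1
        rw [one_smul] at this
        rw [this, hA, hA, zpow_add_one₀ hu, show m + 3 * 1 - 3 * (n + 1) = m - 3 * n by ring]
        ring
      · have := posB_add m n 1
        rw [one_smul] at this
        rw [this, hB, hB, zpow_add_one₀ hu, show m + 3 * 1 - 3 * (n + 1) = m - 3 * n by ring]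
        ring
    · rw [hO ω hh, mul_zero]
      apply hO
      intro hh'
      apply hh
      obtain ⟨m, n, e | e⟩ := (mem_honeycomb _).1 hh'
      · have := posA_add m n (-1)
        rw [← e, neg_smul, one_smul, add_neg_cancel_right] at this
        exact (mem_honeycomb _).2 ⟨_, _, Or.inl this⟩
      · have := posB_add m n (-1)
        rw [← e, neg_smul, one_smul, add_neg_cancel_right] at this
        exact (mem_honeycomb _).2 ⟨_, _, Or.inr this⟩
  refine ⟨ψ, ?_, h0, hq, ?_, ?_⟩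
  · obtain ⟨n, hn⟩ := hne
    intro hψ
    have := hB (n + 1) 0
    rw [hψ] at this
    simp at this
    exact hn this.symm
  · rw [← rep_inj.summable_iff]
    · apply Summable.sum
      · refine ha.congr fun n => ?_
        simp [Function.comp, rep, norm_out (norm_ph k) hq, hA]
      · refine hb.congr fun n => ?_
        simp [Function.comp, rep, norm_out (norm_ph k) hq, hB]
    · intro q hqr
      rw [hO, norm_zero]
      · norm_num
      · intro hh
        apply hqr
        obtain ⟨m, n, e | e⟩ := (mem_honeycomb _).1 hh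
        · refine ⟨Sum.inl (m - 3 * n), ?_⟩
          rw [← QuotientAddGroup.out_eq' q, e, rep, mk_eq_iff]
          exact ⟨n, by rw [posA_add, sub_add_cancel, zero_add]⟩
        · refine ⟨Sum.inr (m - 3 * n - 1), ?_⟩
          rw [← QuotientAddGroup.out_eq' q, e, rep, mk_eq_iff]
          exact ⟨n, by rw [posB_add, show m - 3 * n - 1 + 1 + 3 * n = m by ring, zero_add]⟩
  · intro ω hω
    obtain ⟨m, n, rfl | rfl⟩ := (mem_honeycomb ω).1 hω.1
    · rw [posA_mem] at hω
      rw [ham_A h0, hA, hB, hB, hB, zpow_sub_one₀ hu]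
      have e := h.eqA _ hω
      rw [show m - 1 - 3 * n - 1 = m - 3 * n - 2 by ring,
        show m - 3 * (n - 1) - 1 = m - 3 * n + 2 by ring]
      have hinv : (ph k)⁻¹ = conj (ph k) := (eq_inv_of_mul_eq_one_right (ph_mul_conj k)).symm
      rw [hinv]
      linear_combination ph k ^ n * e
    · rw [posB_mem] at hω
      rw [ham_B h0, hA, hA, hA, hB, zpow_add_one₀ hu]
      have e := h.eqB _ hω
      rw [show m - 3 * n - 1 + 1 = m - 3 * n by ring,
        show m - 3 * n - 1 + 2 = m + 1 - 3 * n by ring,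
        show m - 3 * n - 1 - 2 = m - 3 * (n + 1) by ring] at e
      linear_combination ph k ^ n * e

end Pool.Agent.Lib.MP_1b99aa_mp
end

-- part Pool.Agent.Lib.MP_1b99aa_mp.Exist
section

/-!
Existence of a continuous family of square-summable solutions near `u = 1`.
-/

set_option autoImplicit false

namespace Pool.Agent.Lib.MP_1b99aa_mp

open Filter Topology ComplexConjugate

/-- square-summable sequences -/
abbrev L2 : Type := lp (fun _ : ℕ => ℂ) 2

theorem L2.hasSum (x : L2) : HasSum (fun n => ‖x n‖ ^ 2) (‖x‖ ^ 2) := by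
  have := lp.hasSum_norm (p := 2) (by norm_num) x
  simpa using this

/-- right shift of a sequence -/
def shiftFun (f : ℕ → ℂ) : ℕ → ℂ
  | 0 => 0
  | n + 1 => f n

theorem shiftFun_hasSum (x : L2) : HasSum (fun n => ‖shiftFun x n‖ ^ 2) (‖x‖ ^ 2) := by
  rw [← hasSum_nat_add_iff' 1]
  simpa [shiftFun] using x.hasSum

theorem shiftFun_mem (x : L2) : Memℓp (shiftFun x) 2 := by
  apply memℓp_gen
  simpa using (shiftFun_hasSum x).summable

/-- the right shift as a linear isometry -/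
noncomputable def shiftI : L2 →ₗᵢ[ℂ] L2 where
  toFun x := ⟨shiftFun x, shiftFun_mem x⟩
  map_add' x y := by
    ext n
    change shiftFun (x + y) n = shiftFun x n + shiftFun y n
    cases n <;> simp [shiftFun]
  map_smul' c x := by
    ext n
    cases n <;> simp [shiftFun]
  norm_map' x := by
    have h1 := L2.hasSum (⟨shiftFun x, shiftFun_mem x⟩ : L2)
    have h2 := h1.unique (shiftFun_hasSum x)
    exact (pow_left_inj₀ (norm_nonneg _) (norm_nonneg _) two_ne_zero).1 h2

/-- the right shift -/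
noncomputable def S : L2 →L[ℂ] L2 := shiftI.toContinuousLinearMap

/-- the left shift -/
noncomputable def C : L2 →L[ℂ] L2 := ContinuousLinearMap.adjoint S

theorem add_app (x y : L2) (n : ℕ) : (x + y) n = x n + y n := rfl
theorem smul_app (c : ℂ) (x : L2) (n : ℕ) : (c • x) n = c * x n := rfl
theorem S_zero (x : L2) : S x 0 = 0 := rfl
theorem S_succ (x : L2) (n : ℕ) : S x (n + 1) = x n := rfl
theorem norm_S (x : L2) : ‖S x‖ = ‖x‖ := shiftI.norm_map x
theorem inner_S (x y : L2) : inner ℂ (S x) (S y) = inner ℂ x y := shiftI.inner_map_map x y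

theorem C_apply (x : L2) (n : ℕ) : C x n = x (n + 1) := by
  have h1 : S (lp.single 2 n (1 : ℂ)) = lp.single 2 (n + 1) (1 : ℂ) := by
    ext m
    cases m with
    | zero => simp [S_zero, lp.single_apply]
    | succ k => simp [S_succ, lp.single_apply, Pi.single_apply]
  have h2 : inner ℂ (lp.single 2 n (1 : ℂ) : L2) (C x) = inner ℂ (lp.single 2 (n + 1) (1 : ℂ) : L2) x := by
    rw [C, ContinuousLinearMap.adjoint_inner_right, h1]
  rw [lp.inner_single_left, lp.inner_single_left] at h2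
  simpa using h2

theorem norm_sq_C (x : L2) : ‖x‖ ^ 2 = ‖C x‖ ^ 2 + ‖x 0‖ ^ 2 := by
  have h1 := (C x).hasSum
  simp only [C_apply] at h1
  have h2 := (hasSum_nat_add_iff (f := fun n => ‖x n‖ ^ 2) 1).1 h1
  simpa using x.hasSum.unique h2

/-- bulk operator -/
noncomputable def P (u : ℂ) : L2 →L[ℂ] L2 :=
  conj u • ContinuousLinearMap.id ℂ L2 + S ∘L S ∘L S + S ∘L S ∘L S ∘L S

/-- the Toeplitz operator -/
noncomputable def T (u : ℂ) : L2 →L[ℂ] L2 := C ∘L C ∘L P u

theorem continuous_T : Continuous T := by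
  unfold T P
  have : Continuous fun u : ℂ => conj u := Complex.continuous_conj
  fun_prop

theorem adjoint_T (u : ℂ) (y : L2) :
    ContinuousLinearMap.adjoint (T u) y = u • S (S y) + C (C (C (S (S y)))) + C (C (C (C (S (S y))))) := by
  simp only [T, P, C, ContinuousLinearMap.adjoint_comp, map_add, LinearIsometryEquiv.map_smulₛₗ,
    ContinuousLinearMap.adjoint_adjoint, ContinuousLinearMap.adjoint_id]
  simp

/-- extension by zero to negative indices -/
def ext0 (x : ℕ → ℂ) (n : ℤ) : ℂ := if 0 ≤ n then x n.toNat else 0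

theorem ext0_nat (x : ℕ → ℂ) (n : ℕ) : ext0 x n = x n := by simp [ext0]

theorem ext0_neg (x : ℕ → ℂ) (n : ℤ) (h : n < 0) : ext0 x n = 0 := by
  simp [ext0, not_le.2 h]

theorem S_ext (x : L2) (n : ℕ) : S x n = ext0 x (n - 1) := by
  cases n with
  | zero => rw [ext0_neg _ _ (by norm_num)]; rfl
  | succ k => rw [S_succ, ← ext0_nat x k]; congr 1; push_cast; ring

theorem SS_ext (x : L2) (n : ℕ) : S (S x) n = ext0 x (n - 2) := by
  cases n with
  | zero => rw [ext0_neg _ _ (by norm_num)]; rfl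
  | succ k => rw [S_succ, S_ext]; congr 1; push_cast; ring

theorem T_apply (u : ℂ) (x : L2) (n : ℕ) :
    T u x n = ext0 x (n - 1) + ext0 x (n - 2) + conj u * ext0 x (n + 2) := by
  have e : ext0 x ((n : ℤ) + 2) = x (n + 1 + 1) := by
    rw [← ext0_nat x (n + 1 + 1)]; congr 1
  rw [e, ← S_ext, ← SS_ext]
  change C (C (conj u • x + S (S (S x)) + S (S (S (S x))))) n = _
  simp only [C_apply, add_app, smul_app, S_succ]
  ring

theorem adjoint_T_apply (u : ℂ) (y : L2) (n : ℕ) :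
    ContinuousLinearMap.adjoint (T u) y n
      = ext0 y (n + 1) + ext0 y (n + 2) + u * ext0 y (n - 2) := by
  have e1 : ext0 y ((n : ℤ) + 1) = y (n + 1) := by
    rw [← ext0_nat y (n + 1)]; congr 1
  have e2 : ext0 y ((n : ℤ) + 2) = y (n + 1 + 1) := by
    rw [← ext0_nat y (n + 1 + 1)]; congr 1
  rw [adjoint_T, e1, e2, ← SS_ext]
  simp only [C_apply, add_app, smul_app, S_succ]
  ring

theorem summable_ext0 (x : L2) : Summable fun n : ℤ => ‖ext0 x n‖ ^ 2 := by
  apply Summable.of_nat_of_neg_add_one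
  · simpa only [ext0_nat] using x.hasSum.summable
  · have : (fun n : ℕ => ‖ext0 x (-((n : ℤ) + 1))‖ ^ 2) = fun _ => 0 := by
      funext n
      rw [ext0_neg _ _ (by omega)]; simp
    rw [this]
    exact summable_zero

/-- real part of the inner product -/
noncomputable def Bf (x y : L2) : ℝ := (inner ℂ x y).re

theorem Bf_add_left (x y z : L2) : Bf (x + y) z = Bf x z + Bf y z := by simp [Bf]
theorem Bf_add_right (x y z : L2) : Bf x (y + z) = Bf x y + Bf x z := by
  simp [Bf]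
theorem Bf_smul_left (c : ℝ) (x y : L2) : Bf ((c : ℂ) • x) y = c * Bf x y := by
  simp [Bf]
theorem Bf_smul_right (c : ℝ) (x y : L2) : Bf x ((c : ℂ) • y) = c * Bf x y := by
  simp [Bf]
theorem Bf_symm (x y : L2) : Bf x y = Bf y x := inner_re_symm (𝕜 := ℂ) x y
theorem Bf_self (x : L2) : Bf x x = ‖x‖ ^ 2 := inner_self_eq_norm_sq (𝕜 := ℂ) x
theorem Bf_S (x y : L2) : Bf (S x) (S y) = Bf x y := by simp only [Bf, inner_S]
theorem Bf_abs (x y : L2) (h : ‖y‖ = ‖x‖) : |Bf x y| ≤ ‖x‖ ^ 2 := by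
  have h1 := Complex.abs_re_le_norm (inner ℂ x y)
  have h2 := norm_inner_le_norm (𝕜 := ℂ) x y
  rw [h] at h2
  unfold Bf
  nlinarith

theorem bulk_one (x : L2) : 49 / 100 * ‖x‖ ≤ ‖x + S (S (S x)) + S (S (S (S x)))‖ := by
  have h1 := Bf_self (x + S (S (S x)) + S (S (S (S x))))
  have h2 := Bf_self (((238 : ℝ) : ℂ) • x + ((139 : ℝ) : ℂ) • S x + ((-24 : ℝ) : ℂ) • S (S x)
    + ((70 : ℝ) : ℂ) • S (S (S x)) + ((168 : ℝ) : ℂ) • S (S (S (S x))))
  simp only [Bf_add_left, Bf_add_right, Bf_smul_left, Bf_smul_right, Bf_S,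
    Bf_symm (S x) x, Bf_symm (S (S x)) x, Bf_symm (S (S (S x))) x,
    Bf_symm (S (S (S (S x)))) x] at h1 h2
  rw [Bf_self x] at h1 h2
  have r1 := abs_le.1 (Bf_abs x (S x) (norm_S x))
  have r2 := abs_le.1 (Bf_abs x (S (S x)) (by simp only [norm_S]))
  have r3 := abs_le.1 (Bf_abs x (S (S (S x))) (by simp only [norm_S]))
  have r4 := abs_le.1 (Bf_abs x (S (S (S (S x)))) (by simp only [norm_S]))
  have h3 := sq_nonneg ‖((238 : ℝ) : ℂ) • x + ((139 : ℝ) : ℂ) • S x + ((-24 : ℝ) : ℂ) • S (S x)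
    + ((70 : ℝ) : ℂ) • S (S (S x)) + ((168 : ℝ) : ℂ) • S (S (S (S x)))‖
  have h4 := sq_nonneg ‖x‖
  apply le_of_sq_le_sq _ (norm_nonneg _)
  rw [← h1, mul_pow]
  linarith

theorem bulk (u : ℂ) (hu : ‖u - 1‖ < 1 / 100) (x : L2) : 48 / 100 * ‖x‖ ≤ ‖P u x‖ := by
  have h1 := bulk_one x
  have e : x + S (S (S x)) + S (S (S (S x))) = P u x - (conj (u - 1)) • x := by
    simp [P, sub_smul]; abel
  rw [e] at h1
  have h2 := norm_sub_le (P u x) ((conj (u - 1)) • x)
  rw [norm_smul, Complex.norm_conj] at h2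
  have h3 : ‖u - 1‖ * ‖x‖ ≤ 1 / 100 * ‖x‖ := by gcongr
  linarith

/-- test vector -/
def tv : ℕ → ℂ
  | 0 => 8 | 1 => -10 | 2 => 5 | 3 => -6 | 4 => 2 | 5 => 3 | 6 => -2 | 7 => 3 | 8 => -3
  | _ + 9 => 0

theorem tv_hasSum : HasSum (fun n => ‖tv n‖ ^ 2) 260 := by
  rw [← hasSum_nat_add_iff' 9]
  simp [tv, Finset.sum_range_succ]
  norm_num

/-- test vector in the Hilbert space -/
noncomputable def tvL : L2 := ⟨tv, by
  apply memℓp_gen
  simpa using tv_hasSum.summable⟩

theorem norm_tvL : ‖tvL‖ ^ 2 = 260 := tvL.hasSum.unique tv_hasSum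

theorem norm_T_tvL : ‖T 1 tvL‖ ^ 2 = 58 := by
  refine (T 1 tvL).hasSum.unique ?_
  have hS : ∀ n, T 1 tvL n = S tvL n + S (S tvL) n + tv (n + 1 + 1) := by
    intro n
    rw [T_apply, ← S_ext, ← SS_ext]
    have e : ext0 tvL ((n : ℤ) + 2) = tv (n + 1 + 1) := by
      rw [show tv (n + 1 + 1) = tvL (n + 1 + 1) from rfl, ← ext0_nat tvL (n + 1 + 1)]; congr 1
    rw [e]; simp
  have hv : ∀ n, tvL n = tv n := fun _ => rfl
  rw [← hasSum_nat_add_iff' 11]
  simp only [hS, Finset.sum_range_succ, S_succ, S_zero, hv, tv]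
  norm_num

instance : Nonempty {x : L2 // ‖x‖ = 1} :=
  ⟨⟨lp.single 2 0 (1 : ℂ), by rw [lp.norm_single (by norm_num)]; simp⟩⟩

theorem smin_one : smin (T 1) < 48 / 100 := by
  have h1 := smin_mul_le (T 1) tvL
  have h2 := pow_le_pow_left₀ (mul_nonneg (smin_nonneg _) (norm_nonneg _)) h1 2
  rw [mul_pow, norm_tvL, norm_T_tvL] at h2
  apply lt_of_pow_lt_pow_left₀ 2 (by norm_num)
  linarith

theorem exists_sol (u : ℂ) (hu : ‖u - 1‖ < 1 / 100) (hs : smin (T u) < 48 / 100) :
    ∃ a b : ℤ → ℂ, IsSol u (smin (T u)) a b ∧ Summable (fun n => ‖a n‖ ^ 2) ∧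
      Summable (fun n => ‖b n‖ ^ 2) ∧ ∃ n, b n ≠ 0 := by
  have hσ0 := smin_nonneg (T u)
  obtain ⟨x, hx, hTx⟩ := smin_attained (T u)
    ((lp.evalCLM ℂ (fun _ : ℕ => ℂ) 2 0) ∘L C ∘L P u) ((lp.evalCLM ℂ (fun _ : ℕ => ℂ) 2 0) ∘L P u)
    ((48 / 100) ^ 2) (pow_lt_pow_left₀ hs hσ0 two_ne_zero) (fun y => by
      have h1 := norm_sq_C (P u y)
      have h2 := norm_sq_C (C (P u y))
      have h3 := pow_le_pow_left₀ (by positivity) (bulk u hu y) 2
      rw [mul_pow] at h3
      change _ ≤ ‖C (C (P u y))‖ ^ 2 + ‖C (P u y) 0‖ ^ 2 + ‖P u y 0‖ ^ 2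
      linarith)
  have hadj := adjoint_eq_of_attained (T u) hx hTx
  set σ := smin (T u) with hσ
  obtain ⟨y, hy1, hy2⟩ : ∃ y : L2, T u x = (σ : ℂ) • y ∧
      ContinuousLinearMap.adjoint (T u) y = (σ : ℂ) • x := by
    by_cases h0 : σ = 0
    · refine ⟨0, ?_, ?_⟩
      · rw [h0] at hTx; simpa using hTx
      · simp [h0]
    · have h0' : (σ : ℂ) ≠ 0 := by exact_mod_cast h0
      refine ⟨(σ : ℂ)⁻¹ • T u x, by rw [smul_smul, mul_inv_cancel₀ h0', one_smul], ?_⟩
      rw [map_smul, hadj, smul_smul]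
      congr 1
      push_cast
      field_simp
  refine ⟨ext0 y, ext0 x, ⟨ext0_neg y, ext0_neg x, fun n hn => ?_, fun n hn => ?_⟩,
    summable_ext0 y, summable_ext0 x, ?_⟩
  · obtain ⟨m, rfl⟩ := Int.eq_ofNat_of_zero_le hn
    rw [← T_apply, hy1, ext0_nat, smul_app]
  · obtain ⟨m, rfl⟩ := Int.eq_ofNat_of_zero_le hn
    rw [← adjoint_T_apply, hy2, ext0_nat, smul_app]
  · by_contra hcon
    push Not at hcon
    have : x = 0 := by
      ext n
      rw [← ext0_nat x n, hcon]; simp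
    rw [this] at hx
    simp at hx

end Pool.Agent.Lib.MP_1b99aa_mp
end
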